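import Pool.Agent.N98.RM.Base

/-!
Dedekind domains have logarithmic regular models.
-/

set_option autoImplicit false
set_option linter.unusedVariables false
set_option linter.unusedSectionVars false

universe u

open IsLocalRing Pool.Agent.W418.LU2

namespace Pool.Agent.N98.RM

section cover

variable {O : Type u} [CommRing O] [IsDedekindDomain O]

/-- Two open sets on which finitely many primes are principal. -/
theorem exists_cover_ded {n : ℕ} (P : Fin n → Ideal O) (hP : ∀ i, (P i).IsPrime)
    (hP0 : ∀ i, P i ≠ ⊥) :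
    ∃ (s : Bool → O) (x : Bool → Fin n → O), s false + s true = 1 ∧ (∀ b i, x b i ≠ 0) ∧
    ∀ b i, (∀ a ∈ P i, ∃ c, s b * a = x b i * c) ∧ s b * x b i ∈ P i := by
  classical
  set N : Ideal O := ∏ i, P i with hN
  have hN0 : N ≠ ⊥ := Finset.prod_ne_zero_iff.2 fun i _ => hP0 i
  have hNP : ∀ i, N ≤ P i := fun i => Ideal.dvd_iff_le.1 (Finset.dvd_prod_of_mem _ (Finset.mem_univ i))
  have h1 : ∀ i, ∃ a, P i * N ⊔ Ideal.span {a} = P i := fun i =>
    IsDedekindDomain.exists_sup_span_eq Ideal.mul_le_left (mul_ne_zero (hP0 i) hN0)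
  choose a ha using h1
  have haP : ∀ i, a i ∈ P i := fun i => by
    have h2 : Ideal.span {a i} ≤ P i := by
      conv_rhs => rw [← ha i]
      exact le_sup_right
    exact h2 (Ideal.mem_span_singleton_self _)
  have h2 : ∀ i, ∃ A : Ideal O, Ideal.span {a i} = P i * A := fun i =>
    Ideal.dvd_iff_le.2 ((Ideal.span_singleton_le_iff_mem _).2 (haP i))
  choose A hA using h2
  have h3 : ∀ i, N ⊔ A i = ⊤ := by
    intro i
    have h4 : P i * (N + A i) = P i * 1 := by
      rw [mul_add, mul_one, ← hA i]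
      exact ha i
    have h5 := mul_left_cancel₀ (show P i ≠ 0 from hP0 i) h4
    rw [Ideal.one_eq_top] at h5
    exact h5
  have ha0 : ∀ i, a i ≠ 0 := by
    intro i h0
    have h4 := ha i
    rw [h0, Ideal.span_singleton_eq_bot.2 rfl, sup_bot_eq] at h4
    have h5 : P i * N = P i * 1 := by rw [h4, mul_one]
    have h6 : N = 1 := mul_left_cancel₀ (show P i ≠ 0 from hP0 i) h5
    apply (hP i).ne_top
    rw [eq_top_iff, ← Ideal.one_eq_top, ← h6]
    exact hNP i
  have h4 : IsCoprime N (∏ i, A i) := IsCoprime.prod_right fun i _ =>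
    Ideal.isCoprime_iff_sup_eq.2 (h3 i)
  obtain ⟨m, hm, s, hs, hms⟩ := Ideal.isCoprime_iff_exists.1 h4
  refine ⟨fun b => if b then s else m, fun b i => if b then a i else 1, hms, ?_, ?_⟩
  · rintro (_ | _) i
    · exact fun h => (hP i).ne_top ((Ideal.eq_top_iff_one _).2 (by
        have h5 : (1 : O) = 0 := h
        rw [h5]
        exact Ideal.zero_mem _))
    · exact ha0 i
  · rintro (_ | _) i
    · refine ⟨fun c _ => ⟨m * c, (one_mul _).symm⟩, ?_⟩
      change m * 1 ∈ P i
      rw [mul_one]
      exact hNP i hm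
    · refine ⟨fun c hc => ?_, Ideal.mul_mem_left _ _ (haP i)⟩
      have hsA : s ∈ A i := by
        have : ∏ i, A i ≤ A i :=
          Ideal.dvd_iff_le.1 (Finset.dvd_prod_of_mem _ (Finset.mem_univ i))
        exact this hs
      have h5 : s * c ∈ Ideal.span {a i} := by
        rw [hA i, mul_comm s c]
        exact Ideal.mul_mem_mul hc hsA
      obtain ⟨d, hd⟩ := Ideal.mem_span_singleton.1 h5
      exact ⟨d, hd⟩

/-- Factorization over a finite set of primes. -/
theorem exists_factor {n : ℕ} (P : Fin n → Ideal O) (c : O) (hc : c ≠ 0)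
    (hP : ∀ Q : Ideal O, Q.IsPrime → Q ≠ ⊥ → c ∈ Q → ∃ i, P i = Q) (a : O) (hac : a ∣ c) :
    ∃ γ : Fin n → ℕ, Ideal.span {a} = ∏ i, P i ^ γ i := by
  classical
  have ha : a ≠ 0 := by
    rintro rfl
    exact hc (zero_dvd_iff.1 hac)
  have key : ∀ s : Multiset (Ideal O), (∀ Q ∈ s, ∃ i, P i = Q) →
      ∃ γ : Fin n → ℕ, s.prod = ∏ i, P i ^ γ i := by
    intro s
    induction s using Multiset.induction_on with
    | empty =>
      refine fun _ => ⟨0, ?_⟩
      rw [Multiset.prod_zero]
      simp only [Pi.zero_apply, pow_zero, Finset.prod_const_one]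
    | cons Q s ih =>
      intro hs
      obtain ⟨γ, hγ⟩ := ih fun Q hQ => hs Q (Multiset.mem_cons_of_mem hQ)
      obtain ⟨i, hi⟩ := hs Q (Multiset.mem_cons_self _ _)
      refine ⟨γ + Pi.single i 1, ?_⟩
      rw [Multiset.prod_cons, hγ, ← hi]
      simp only [Pi.add_apply, pow_add, Finset.prod_mul_distrib]
      rw [mul_comm]
      congr 1
      rw [Finset.prod_eq_single i]
      · rw [Pi.single_eq_same, pow_one]
      · intro l _ hl
        rw [Pi.single_eq_of_ne hl, pow_zero]
      · intro h; exact absurd (Finset.mem_univ i) h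
  have ha' : Ideal.span {a} ≠ ⊥ := fun h => ha (Ideal.span_singleton_eq_bot.1 h)
  obtain ⟨γ, hγ⟩ := key (UniqueFactorizationMonoid.normalizedFactors (Ideal.span {a})) (by
    intro Q hQ
    have h1 := UniqueFactorizationMonoid.prime_of_normalized_factor Q hQ
    refine hP Q (Ideal.isPrime_of_prime h1) h1.ne_zero ?_
    have h2 := UniqueFactorizationMonoid.dvd_of_mem_normalizedFactors hQ
    have h3 := Ideal.dvd_iff_le.1 h2
    obtain ⟨d, rfl⟩ := hac
    exact Ideal.mul_mem_right _ _ (h3 (Ideal.mem_span_singleton_self _)))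
  refine ⟨γ, ?_⟩
  rw [← hγ]
  exact (Ideal.prod_normalizedFactors_eq_self ha').symm

lemma exists_primes (c : O) (hc : c ≠ 0) : ∃ (n : ℕ) (P : Fin n → Ideal O),
    Function.Injective P ∧ (∀ i, (P i).IsPrime) ∧ (∀ i, P i ≠ ⊥) ∧
      ∀ Q : Ideal O, Q.IsPrime → Q ≠ ⊥ → c ∈ Q → ∃ i, P i = Q := by
  classical
  have hc' : Ideal.span {c} ≠ ⊥ := fun h => hc (Ideal.span_singleton_eq_bot.1 h)
  let S : Finset (Ideal O) := (UniqueFactorizationMonoid.normalizedFactors (Ideal.span {c})).toFinset
  have hS : ∀ Q, Q ∈ S ↔ Q.IsPrime ∧ Q ≠ ⊥ ∧ c ∈ Q := by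
    intro Q
    rw [Multiset.mem_toFinset]
    constructor
    · intro hQ
      have h1 := UniqueFactorizationMonoid.prime_of_normalized_factor Q hQ
      refine ⟨Ideal.isPrime_of_prime h1, h1.ne_zero, ?_⟩
      have h2 := UniqueFactorizationMonoid.dvd_of_mem_normalizedFactors hQ
      exact Ideal.dvd_iff_le.1 h2 (Ideal.mem_span_singleton_self _)
    · rintro ⟨h1, h2, h3⟩
      have h4 : Prime Q := Ideal.prime_of_isPrime h2 h1
      have h5 : Q ∣ Ideal.span {c} :=
        Ideal.dvd_iff_le.2 ((Ideal.span_singleton_le_iff_mem _).2 h3)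
      obtain ⟨Q', hQ', hQQ⟩ := UniqueFactorizationMonoid.exists_mem_normalizedFactors_of_dvd
        hc' h4.irreducible h5
      rw [associated_iff_eq] at hQQ
      rwa [hQQ]
  refine ⟨S.card, fun i => (S.equivFin.symm i).1, ?_, ?_, ?_, ?_⟩
  · exact Subtype.val_injective.comp S.equivFin.symm.injective
  · exact fun i => ((hS _).1 (S.equivFin.symm i).2).1
  · exact fun i => ((hS _).1 (S.equivFin.symm i).2).2.1
  · intro Q h1 h2 h3
    refine ⟨S.equivFin ⟨Q, (hS Q).2 ⟨h1, h2, h3⟩⟩, ?_⟩
    change (S.equivFin.symm (S.equivFin ⟨Q, (hS Q).2 ⟨h1, h2, h3⟩⟩)).1 = Q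
    rw [Equiv.symm_apply_apply]

/-- The fraction of a product of primes and the product of the local equations. -/
theorem exists_frac {n : ℕ} (P : Fin n → Ideal O) (s : O) (x : Fin n → O)
    (h : ∀ i, (∀ a ∈ P i, ∃ c, s * a = x i * c) ∧ s * x i ∈ P i) (a : O) (γ : Fin n → ℕ)
    (ha : Ideal.span {a} = ∏ i, P i ^ γ i) :
    (∃ c, s ^ (∑ i, γ i) * a = (∏ i, x i ^ γ i) * c) ∧
      ∃ c, s ^ (∑ i, γ i) * ∏ i, x i ^ γ i = a * c := by
  classical
  constructor
  · have h1 : ∀ i, Ideal.span {s} * P i ≤ Ideal.span {x i} := by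
      intro i
      rw [Ideal.span_singleton_mul_le_iff]
      intro b hb
      obtain ⟨c, hc⟩ := (h i).1 b hb
      rw [hc]
      exact Ideal.mul_mem_right _ _ (Ideal.mem_span_singleton_self _)
    have h2 : ∀ t : Finset (Fin n), ∏ i ∈ t, (Ideal.span {s} * P i) ^ γ i ≤
        ∏ i ∈ t, (Ideal.span {x i}) ^ γ i := by
      intro t
      induction t using Finset.induction_on with
      | empty => simp
      | insert i t hi ih =>
        rw [Finset.prod_insert hi, Finset.prod_insert hi]
        exact Ideal.mul_mono (Ideal.pow_right_mono (h1 i) _) ih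
    have h3 := h2 Finset.univ
    have h4 : ∏ i, (Ideal.span {s} * P i) ^ γ i = Ideal.span {s ^ (∑ i, γ i) * a} := by
      simp only [mul_pow, Finset.prod_mul_distrib]
      rw [← ha, Finset.prod_pow_eq_pow_sum, Ideal.span_singleton_pow,
        Ideal.span_singleton_mul_span_singleton]
    have h5 : ∏ i, (Ideal.span {x i}) ^ γ i = Ideal.span {∏ i, x i ^ γ i} := by
      simp only [Ideal.span_singleton_pow]
      rw [Ideal.prod_span_singleton]
    rw [h4, h5] at h3
    exact Ideal.mem_span_singleton.1 (h3 (Ideal.mem_span_singleton_self _))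
  · have h1 : s ^ (∑ i, γ i) * ∏ i, x i ^ γ i = ∏ i, (s * x i) ^ γ i := by
      simp only [mul_pow, Finset.prod_mul_distrib]
      rw [Finset.prod_pow_eq_pow_sum]
    have h2 : ∏ i, (s * x i) ^ γ i ∈ ∏ i, P i ^ γ i :=
      Ideal.prod_mem_prod fun i _ => Ideal.pow_mem_pow (h i).2 _
    rw [← ha, ← h1] at h2
    exact Ideal.mem_span_singleton.1 h2

end cover

section main

variable {O F : Type u} [CommRing O] [IsDedekindDomain O] [Field F] [Algebra O F]
  [IsFractionRing O F]

/-- Dedekind domains have logarithmic regular models. -/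
theorem hasRM_dedekind : HasRM O F := by
  classical
  intro H _ h hh
  have hinj : Function.Injective (algebraMap O F) := inj_OF
  have hne : ∀ {a : O}, a ≠ 0 → algebraMap O F a ≠ 0 := fun ha h =>
    ha (hinj (h.trans (map_zero _).symm))
  have h1 : ∀ t, ∃ a b : O, a ≠ 0 ∧ b ≠ 0 ∧ h t = algebraMap O F a * (algebraMap O F b)⁻¹ := by
    intro t
    obtain ⟨a, b, hb, hab⟩ := IsFractionRing.div_surjective O (h t)
    refine ⟨a, b, ?_, nonZeroDivisors.ne_zero hb, by rw [← hab, div_eq_mul_inv]⟩
    rintro rfl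
    apply hh t
    rw [← hab, map_zero, zero_div]
  choose a b ha hb hab using h1
  let c : O := (∏ t, a t) * ∏ t, b t
  have hc : c ≠ 0 := mul_ne_zero (Finset.prod_ne_zero_iff.2 fun t _ => ha t)
    (Finset.prod_ne_zero_iff.2 fun t _ => hb t)
  have hac : ∀ t, a t ∣ c := fun t =>
    (Finset.dvd_prod_of_mem a (Finset.mem_univ t)).mul_right _
  have hbc : ∀ t, b t ∣ c := fun t =>
    (Finset.dvd_prod_of_mem b (Finset.mem_univ t)).mul_left _
  obtain ⟨n, P, hPi, hPp, hP0, hPc⟩ := exists_primes c hc
  obtain ⟨s, x, hs, hx0, hx⟩ := exists_cover_ded P hPp hP0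
  let T : Type := {b : Bool // s b ≠ 0}
  let A : T → Subalgebra O F := fun t => adj ⊥ (algebraMap O F (s t.1))⁻¹
  have hs0 : ∀ t : T, algebraMap O F (s t.1) ≠ 0 := fun t => hne t.2
  have hOA : ∀ (t : T) (a : O), algebraMap O F a ∈ A t := fun t a => (A t).algebraMap_mem a
  have hsA : ∀ t : T, (algebraMap O F (s t.1))⁻¹ ∈ A t := fun t => self_mem_adj _ _
  have hx0' : ∀ b i, algebraMap O F (x b i) ≠ 0 := fun b i => hne (hx0 b i)
  let M : LM (⊥ : Subalgebra O F) ⊤ T (Fin n) :=
    { A := A
      H := fun t => algebraMap O F (s t.1)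
      x := fun t i => algebraMap O F (x t.1 i)
      ft := fun t => ft_adj inferInstance _
      base := fun t => bot_le
      H0 := hs0
      HR := fun t => trivial
      rt := fun t t' => by
        rw [div_eq_mul_inv]
        exact (A t).mul_mem (hOA _ _) (hsA t)
      gl := by
        intro t t' f hf
        obtain ⟨m, hm⟩ := (mem_adj_inv (Subalgebra.algebraMap_mem _ _) (hs0 t')).1 hf
        refine ⟨m, ?_⟩
        have e : (algebraMap O F (s t'.1) / algebraMap O F (s t.1)) ^ m * f =
            f * algebraMap O F (s t'.1) ^ m * ((algebraMap O F (s t.1))⁻¹) ^ m := by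
          rw [div_eq_mul_inv, mul_pow]
          ring
        rw [e]
        exact (A t).mul_mem (le_adj _ _ hm) ((A t).pow_mem (hsA t) m)
      dn := fun t f hf => ⟨0, trivial⟩
      cv := by
        intro V hV
        have hV' : ∀ a : O, algebraMap O F a ∈ V := fun a => hV _ (Subalgebra.algebraMap_mem _ a)
        have key : ∀ b, algebraMap O F (s b) ≠ 0 → (algebraMap O F (s b))⁻¹ ∈ V →
            ∃ t : T, ∀ f ∈ A t, f ∈ V := by
          intro b hb hbV
          refine ⟨⟨b, fun h => hb (by rw [h, map_zero])⟩, ?_⟩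
          exact adj_induction _ _ (p := fun f => f ∈ V) (fun f hf => hV f hf)
            (fun _ _ h1 h2 => V.add_mem _ _ h1 h2) (fun _ h => V.mul_mem _ _ h hbV)
        let j : Bool → V := fun b => ⟨algebraMap O F (s b), hV' _⟩
        have h1 : j false + j true = 1 := by
          apply Subtype.ext
          change algebraMap O F (s false) + algebraMap O F (s true) = 1
          rw [← map_add, hs, map_one]
        have key2 : ∀ b, IsUnit (j b) → ∃ t : T, ∀ f ∈ A t, f ∈ V := by
          intro b hb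
          obtain ⟨c, hc⟩ := isUnit_iff_exists_inv.1 hb
          have h3 : algebraMap O F (s b) * c = 1 := congrArg Subtype.val hc
          refine key b (left_ne_zero_of_mul_eq_one h3) ?_
          rw [← eq_inv_of_mul_eq_one_right h3]
          exact c.2
        rcases IsLocalRing.isUnit_or_isUnit_of_add_one h1 with h | h
        · exact key2 _ h
        · exact key2 _ h
      xA := fun t i => hOA _ _
      x0 := fun t i => hx0' _ _
      gi := by
        intro t t' i
        refine ⟨1, ?_⟩
        obtain ⟨d, hd⟩ := (hx t.1 i).1 _ (hx t'.1 i).2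
        have e : (algebraMap O F (s t'.1) / algebraMap O F (s t.1)) ^ 1 *
            (algebraMap O F (x t'.1 i) / algebraMap O F (x t.1 i)) =
            algebraMap O F d * ((algebraMap O F (s t.1))⁻¹) ^ 2 := by
          have h2 := congrArg (algebraMap O F) hd
          simp only [map_mul] at h2
          have h3 := hs0 t
          have h4 := hx0' t.1 i
          field_simp
          linear_combination h2
        rw [e]
        exact (A t).mul_mem (hOA _ _) ((A t).pow_mem (hsA t) 2)
      rg := by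
        intro t
        refine rg_ded (fun i => hx0' _ _) (fun i => hOA _ _) P (fun i => (hPp i).isMaximal (hP0 i))
          hPi ?_
        intro i a ha
        obtain ⟨d, hd⟩ := (hx t.1 i).1 a ha
        refine ⟨algebraMap O F d * (algebraMap O F (s t.1))⁻¹, (A t).mul_mem (hOA _ _) (hsA t), ?_⟩
        have h2 := congrArg (algebraMap O F) hd
        simp only [map_mul] at h2
        rw [← mul_assoc, ← h2, mul_comm (algebraMap O F (s t.1)), mul_assoc,
          mul_inv_cancel₀ (hs0 t), mul_one] }
  have hB : ∀ e : O, e ∣ c → IsB M (algebraMap O F e) := by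
    intro e he
    obtain ⟨γ, hγ⟩ := exists_factor P c hc hPc e he
    have he0 : e ≠ 0 := by
      rintro rfl
      exact hc (zero_dvd_iff.1 he)
    refine ⟨fun i => γ i, fun t => ?_⟩
    obtain ⟨⟨u, hu⟩, v, hv⟩ := exists_frac P (s t.1) (x t.1) (fun i => hx t.1 i) e γ hγ
    have hP' : ∏ i, algebraMap O F (x t.1 i) ^ γ i ≠ 0 :=
      Finset.prod_ne_zero_iff.2 fun i _ => pow_ne_zero _ (hx0' _ _)
    have hu' := congrArg (algebraMap O F) hu
    have hv' := congrArg (algebraMap O F) hv
    simp only [map_mul, map_pow, map_prod] at hu' hv'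
    set X := ∏ i, algebraMap O F (x t.1 i) ^ γ i with hX
    have e1 : algebraMap O F e / X =
        algebraMap O F u * ((algebraMap O F (s t.1))⁻¹) ^ (∑ i, γ i) := by
      have := hs0 t
      rw [inv_pow]
      field_simp
      linear_combination hu'
    have e2 : (algebraMap O F e / X)⁻¹ =
        algebraMap O F v * ((algebraMap O F (s t.1))⁻¹) ^ (∑ i, γ i) := by
      have := hs0 t
      have := hne he0
      rw [inv_pow, inv_div]
      field_simp
      linear_combination hv'
    refine ⟨algebraMap O F e / X, div_ne_zero (hne he0) hP', ?_, ?_, ?_⟩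
    · rw [e1]
      exact (A t).mul_mem (hOA _ _) ((A t).pow_mem (hsA t) _)
    · rw [e2]
      exact (A t).mul_mem (hOA _ _) ((A t).pow_mem (hsA t) _)
    · change algebraMap O F e = algebraMap O F e / X * ∏ i, algebraMap O F (x t.1 i) ^ (γ i : ℤ)
      simp only [zpow_natCast]
      rw [← hX, div_mul_cancel₀ _ hP']
  refine ⟨T, Fin n, inferInstance, inferInstance, M, fun t => ?_, fun t y => ?_⟩
  · rw [hab]
    exact (hB _ (hac t)).mul (hB _ (hbc t)).inv
  · obtain ⟨a, b, hb, hab⟩ := IsFractionRing.div_surjective O y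
    exact ⟨_, hOA t a, _, hOA t b, hne (nonZeroDivisors.ne_zero hb), by
      rw [← hab, div_eq_mul_inv]⟩

end main

end Pool.Agent.N98.RM
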