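import Pool.Agent.N98.RM.Step

/-!
# Extension of the function field, and the product with the projective line
-/

set_option autoImplicit false
set_option linter.unusedVariables false
set_option linter.unusedSectionVars false

universe u

open Polynomial IsLocalRing Pool.Agent.W418.LU2

namespace Pool.Agent.N98.RM

section equiv

variable {B C : Type u} [CommRing B] [IsLocalRing B] [CommRing C] [IsLocalRing C]

lemma equiv_mem_max (e : B ≃+* C) (b : B) : e b ∈ maximalIdeal C ↔ b ∈ maximalIdeal B := by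
  rw [mem_maximalIdeal, mem_maximalIdeal, mem_nonunits_iff, mem_nonunits_iff, not_iff_not]
  exact MulEquiv.isUnit_map e

lemma equiv_mem_sq (e : B ≃+* C) {b : B} (h : e b ∈ maximalIdeal C ^ 2) :
    b ∈ maximalIdeal B ^ 2 := by
  have key : ∀ c ∈ maximalIdeal C ^ 2, e.symm c ∈ maximalIdeal B ^ 2 := by
    intro c hc
    rw [pow_two] at hc
    induction hc using Submodule.mul_induction_on' with
    | mem_mul_mem a ha b hb =>
      rw [map_mul, pow_two]
      refine Ideal.mul_mem_mul ?_ ?_
      · exact (equiv_mem_max e.symm a).2 ha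
      · exact (equiv_mem_max e.symm b).2 hb
    | add a _ b _ ha hb =>
      rw [map_add]
      exact Ideal.add_mem _ ha hb
  have h1 := key _ h
  rwa [e.symm_apply_apply] at h1

lemma indN_equiv {ι : Type} [Fintype ι] {z : ι → B} (hz : IndN z) (e : B ≃+* C) :
    IndN (fun i => e (z i)) := by
  intro c hc hs i
  have h1 := hz (fun i => e.symm (c i)) (by
    intro i hi
    have h2 : c i = 0 := hc i (fun h => hi ((equiv_mem_max e _).1 h))
    change e.symm (c i) = 0
    rw [h2, map_zero]) (by
    apply equiv_mem_sq e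
    rw [map_sum]
    convert hs using 1
    refine Finset.sum_congr rfl fun i _ => ?_
    rw [map_mul, e.apply_symm_apply]) i
  exact (equiv_mem_max e.symm _).1 h1

end equiv

section map0

variable {E K : Type u} [Field E] [Field K] (σ : E →+* K)

theorem regP_map {W : Subring K} {P : Subring E} {ι : Type} [Fintype ι] {x : ι → E}
    (h : RegP (W.comap σ) P x) : RegP W (P.map σ) (fun i => σ (x i)) := by
  have hreg := h.reg
  let e : P ≃+* P.map σ := P.equivMapOfInjective σ σ.injective
  have he : ∀ p : P, (e p : K) = σ p := fun p => rfl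
  have hreg' : IsRegularLocalRing (P.map σ) := IsRegularLocalRing.of_ringEquiv e
  refine ⟨?_, fun i => (_root_.map_ne_zero σ).2 (h.ne i), fun i => ⟨x i, h.mem i, rfl⟩, hreg', ?_, ?_⟩
  · rintro _ ⟨p, hp, rfl⟩
    exact h.PA hp
  · rintro _ ⟨p, hp, rfl⟩ h0 h1
    rw [← map_inv₀] at h1 ⊢
    exact ⟨p⁻¹, h.inv p hp ((_root_.map_ne_zero σ).1 h0) h1, rfl⟩
  · have h1 := indN_equiv h.ind e
    exact h1

lemma loc_comap {W : Subring K} (hW : Loc W) : Loc (W.comap σ) := by
  intro a ha
  rcases hW (σ a) ha with h | h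
  · left
    refine ⟨(_root_.map_ne_zero σ).1 h.1, ?_⟩
    change σ a⁻¹ ∈ W
    rw [map_inv₀]
    exact h.2
  · right
    rw [← map_one σ, ← map_sub] at h
    refine ⟨(_root_.map_ne_zero σ).1 h.1, ?_⟩
    change σ (1 - a)⁻¹ ∈ W
    rw [map_inv₀]
    exact h.2

lemma lo_map (W : Subring K) (S : Subring E) : lo W (S.map σ) = (lo (W.comap σ) S).map σ := by
  apply le_antisymm
  · rintro _ ⟨_, ⟨a, ha, rfl⟩, _, ⟨b, hb, rfl⟩, hb0, hbW, rfl⟩
    refine ⟨a * b⁻¹, ⟨a, ha, b, hb, (_root_.map_ne_zero σ).1 hb0, ?_, rfl⟩, ?_⟩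
    · change σ b⁻¹ ∈ W
      rw [map_inv₀]
      exact hbW
    · rw [map_mul, map_inv₀]
  · rintro _ ⟨_, ⟨a, ha, b, hb, hb0, hbW, rfl⟩, rfl⟩
    refine ⟨σ a, ⟨a, ha, rfl⟩, σ b, ⟨b, hb, rfl⟩, (_root_.map_ne_zero σ).2 hb0, ?_, ?_⟩
    · rw [← map_inv₀]
      exact hbW
    · rw [map_mul, map_inv₀]

theorem RegC.map {A : Subring E} {I : Type} {x : I → E} (h : RegC A x) :
    RegC (A.map σ) (fun i => σ (x i)) := by
  refine ⟨fun i => (_root_.map_ne_zero σ).2 (h.ne i), fun i => ⟨x i, h.mem i, rfl⟩,
    fun W hW hAW ι _ f hf => ?_⟩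
  rw [lo_map]
  refine regP_map σ (h.reg (W.comap σ) (loc_comap σ hW) ?_ ι f hf)
  intro a ha
  exact hAW ⟨a, ha, rfl⟩

end map0

/-- The function `g` is a monomial in the local equations, up to units. -/
def F1 {k K : Type u} [CommRing k] [Field K] [Algebra k K] {R0 R : Subalgebra k K} {T I : Type}
    [Fintype I] (M : LM R0 R T I) (g : K) (γ : I → ℤ) : Prop :=
  ∀ t, ∃ w, w ≠ 0 ∧ w ∈ M.A t ∧ w⁻¹ ∈ M.A t ∧ g = w * ∏ i, M.x t i ^ γ i

section map

variable {k E K : Type u} [CommRing k] [Field E] [Field K] [Algebra k E] [Algebra k K]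
  [Algebra E K] [IsScalarTower k E K] {T I : Type}

/-- The embedding of the function field. -/
noncomputable def em (k E K : Type u) [CommRing k] [Field E] [Field K] [Algebra k E] [Algebra k K]
    [Algebra E K] [IsScalarTower k E K] : E →ₐ[k] K := IsScalarTower.toAlgHom k E K

lemma em_apply (x : E) : em k E K x = algebraMap E K x := rfl

lemma em_inj : Function.Injective (em k E K) := (algebraMap E K).injective

/-- The isomorphism of a chart with its image. -/
noncomputable def eqv (A : Subalgebra k E) : A ≃ₐ[k] A.map (em k E K) :=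
  A.equivMapOfInjective (em k E K) em_inj

lemma coe_eqv (A : Subalgebra k E) (a : A) : ((eqv (K := K) A a : A.map (em k E K)) : K) =
    em k E K a := rfl

/-- The image of a model. -/
noncomputable def mapLM (M : LM (⊥ : Subalgebra k E) ⊤ T I) : LM (⊥ : Subalgebra k K) ⊤ T I where
  A t := (M.A t).map (em k E K)
  H t := em k E K (M.H t)
  x t i := em k E K (M.x t i)
  ft t := (M.ft t).equiv (eqv (K := K) (M.A t))
  base t := bot_le
  H0 t := by
    rw [map_ne_zero_iff _ em_inj]
    exact M.H0 t
  HR t := trivial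
  rt t t' := ⟨_, M.rt t t', by
    change em k E K (M.H t' / M.H t) = _
    rw [map_div₀]⟩
  gl := by
    rintro t t' _ ⟨f, hf, rfl⟩
    obtain ⟨n, hn⟩ := M.gl t t' f hf
    refine ⟨n, _, hn, ?_⟩
    change em k E K _ = _ * em k E K f
    rw [map_mul, map_pow, map_div₀]
  dn := fun t f hf => ⟨0, trivial⟩
  cv := by
    intro V hV
    obtain ⟨t, ht⟩ := M.cv (V.comap (algebraMap E K)) (by
      intro a ha
      rw [Algebra.mem_bot] at ha
      obtain ⟨c, rfl⟩ := ha
      rw [ValuationSubring.mem_comap, ← IsScalarTower.algebraMap_apply]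
      exact hV _ (Subalgebra.algebraMap_mem _ c))
    refine ⟨t, ?_⟩
    rintro _ ⟨f, hf, rfl⟩
    exact ht f hf
  xA t i := ⟨_, M.xA t i, rfl⟩
  x0 t i := by
    rw [map_ne_zero_iff _ em_inj]
    exact M.x0 t i
  gi := by
    intro t t' i
    obtain ⟨n, hn⟩ := M.gi t t' i
    refine ⟨n, _, hn, ?_⟩
    change em k E K _ = _
    rw [map_mul, map_pow, map_div₀, map_div₀]
  rg t := (M.rg t).map (algebraMap E K)

lemma f1_map [Fintype I] {M : LM (⊥ : Subalgebra k E) ⊤ T I} {g : E} {γ : I → ℤ}
    (h : F1 M g γ) : F1 (mapLM (K := K) M) (algebraMap E K g) γ := by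
  intro t
  obtain ⟨w, hw0, hw, hw', h1⟩ := h t
  refine ⟨em k E K w, (map_ne_zero_iff _ em_inj).2 hw0, ⟨w, hw, rfl⟩,
    ⟨w⁻¹, hw', map_inv₀ (em k E K) w⟩, ?_⟩
  rw [h1]
  change em k E K _ = _
  rw [map_mul, map_prod]
  congr 1
  refine Finset.prod_congr rfl fun i _ => ?_
  rw [map_zpow₀]
  rfl

end map

section step

variable {k K : Type u} [CommRing k] [Field K] [Algebra k K] {T I : Type}

/-- The coordinate on the two charts of the projective line. -/
noncomputable def zz (z : K) (b : Bool) : K := if b then z else z⁻¹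

/-- The homogeneous coordinates of the projective line. -/
noncomputable def zf (z : K) (b : Bool) : K := if b then 1 else z

lemma zz_ne {z : K} (hz : z ≠ 0) (b : Bool) : zz z b ≠ 0 := by
  cases b
  · exact inv_ne_zero hz
  · exact hz

lemma zf_ne {z : K} (hz : z ≠ 0) (b : Bool) : zf z b ≠ 0 := by
  cases b
  · exact hz
  · exact one_ne_zero

lemma zf_div {z : K} (hz : z ≠ 0) {b b' : Bool} (h : b ≠ b') : zf z b' / zf z b = zz z b := by
  cases b <;> cases b' <;> simp_all [zf, zz]

lemma zz_mul {z : K} (hz : z ≠ 0) {b b' : Bool} (h : b ≠ b') : zz z b * zz z b' = 1 := by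
  cases b <;> cases b' <;> simp_all [zz]

/-- The local equations on the product with the projective line. -/
noncomputable def xx (x : I → K) (z : K) (b : Bool) : I ⊕ Bool → K :=
  Sum.elim x (fun c => if b = c then zz z b else 1)

theorem rg_xx {L : Type u} [Field L] [Algebra L K] {A : Subalgebra k K} {x : I → K}
    (h : RegC A.toSubring x) (hAL : ∀ a ∈ A, ∃ l : L, algebraMap L K l = a) {z : K}
    (hz : Transcendental L z) (b : Bool) : RegC (adj A (zz z b)).toSubring (xx x z b) := by
  have hz0 : z ≠ 0 := by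
    rintro rfl
    exact hz isAlgebraic_zero
  have hzb : Transcendental L (zz z b) := by
    cases b
    · exact fun h1 => hz (by simpa [zz] using h1.inv)
    · exact hz
  have h1 := h.trans hAL hzb
  rw [← adj_toSubring A] at h1
  have hnu : ∀ c : Bool, (xx x z b (Sum.inr c))⁻¹ ∉ (adj A (zz z b)).toSubring → b = c := by
    intro c hc
    by_contra hne
    apply hc
    have e : xx x z b (Sum.inr c) = 1 := if_neg hne
    rw [e, inv_one]
    exact Subring.one_mem _
  refine h1.reindex (xx x z b) ?_ ?_ (fun k => Sum.map id (fun _ => ()) k.1) ?_ ?_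
  · rintro (i | c)
    · exact h.ne i
    · change (if b = c then zz z b else 1) ≠ 0
      split_ifs
      · exact zz_ne hz0 b
      · exact one_ne_zero
  · rintro (i | c)
    · exact le_adj A _ (h.mem i)
    · change (if b = c then zz z b else 1) ∈ adj A (zz z b)
      split_ifs
      · exact self_mem_adj _ _
      · exact Subalgebra.one_mem _
  · rintro ⟨i | c, hi⟩ ⟨j | d, hj⟩ hij
    · have h2 : i = j := Sum.inl_injective hij
      subst h2
      rfl
    · exact absurd hij (by simp)
    · exact absurd hij (by simp)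
    · have h2 := hnu c hi
      have h3 := hnu d hj
      subst h2
      subst h3
      rfl
  · rintro ⟨i | c, hi⟩
    · exact ⟨1, Subring.one_mem _, by rw [inv_one]; exact Subring.one_mem _, (one_mul _).symm⟩
    · refine ⟨1, Subring.one_mem _, by rw [inv_one]; exact Subring.one_mem _, ?_⟩
      have h2 := hnu c hi
      subst h2
      rw [one_mul]
      exact if_pos rfl

variable (M : LM (⊥ : Subalgebra k K) ⊤ T I)

/-- The product with the projective line. -/
noncomputable def prodLM {z : K} (hz : z ≠ 0)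
    (h : ∀ t b, RegC (adj (M.A t) (zz z b)).toSubring (xx (M.x t) z b)) :
    LM (⊥ : Subalgebra k K) ⊤ (T × Bool) (I ⊕ Bool) where
  A p := adj (M.A p.1) (zz z p.2)
  H p := M.H p.1 * zf z p.2
  x p := xx (M.x p.1) z p.2
  ft p := ft_adj (M.ft p.1) _
  base p := bot_le
  H0 p := mul_ne_zero (M.H0 _) (zf_ne hz _)
  HR p := trivial
  rt := by
    rintro ⟨t, b⟩ ⟨t', b'⟩
    change M.H t' * zf z b' / (M.H t * zf z b) ∈ adj (M.A t) (zz z b)
    rw [mul_div_mul_comm]
    refine Subalgebra.mul_mem _ (le_adj _ _ (M.rt t t')) ?_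
    by_cases hb : b = b'
    · subst hb
      rw [div_self (zf_ne hz b)]
      exact Subalgebra.one_mem _
    · rw [zf_div hz hb]
      exact self_mem_adj _ _
  gl := by
    rintro ⟨t, b⟩ ⟨t', b'⟩ f hf
    have key : zf z b' / zf z b ∈ adj (M.A t) (zz z b) := by
      by_cases hb : b = b'
      · subst hb
        rw [div_self (zf_ne hz b)]
        exact Subalgebra.one_mem _
      · rw [zf_div hz hb]
        exact self_mem_adj _ _
    have key' : zf z b' / zf z b * zz z b' ∈ adj (M.A t) (zz z b) := by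
      by_cases hb : b = b'
      · subst hb
        rw [div_self (zf_ne hz b), one_mul]
        exact self_mem_adj _ _
      · rw [zf_div hz hb, zz_mul hz hb]
        exact Subalgebra.one_mem _
    have hrt : M.H t' * zf z b' / (M.H t * zf z b) ∈ adj (M.A t) (zz z b) := by
      rw [mul_div_mul_comm]
      exact Subalgebra.mul_mem _ (le_adj _ _ (M.rt t t')) key
    change ∃ n : ℕ, (M.H t' * zf z b' / (M.H t * zf z b)) ^ n * f ∈ adj (M.A t) (zz z b)
    refine adj_induction (M.A t') (zz z b')
      (p := fun f => ∃ n : ℕ, (M.H t' * zf z b' / (M.H t * zf z b)) ^ n * f ∈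
        adj (M.A t) (zz z b)) ?_ ?_ ?_ f hf
    · intro a ha
      obtain ⟨n, hn⟩ := M.gl t t' a ha
      refine ⟨n, ?_⟩
      have h1 : (M.H t' * zf z b' / (M.H t * zf z b)) ^ n * a =
          (M.H t' / M.H t) ^ n * a * (zf z b' / zf z b) ^ n := by
        rw [mul_div_mul_comm, mul_pow]; ring
      rw [h1]
      exact Subalgebra.mul_mem _ (le_adj _ _ hn) (Subalgebra.pow_mem _ key n)
    · rintro a c ⟨n, hn⟩ ⟨m, hm⟩
      refine ⟨n + m, ?_⟩
      have h1 : (M.H t' * zf z b' / (M.H t * zf z b)) ^ (n + m) * (a + c) =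
          (M.H t' * zf z b' / (M.H t * zf z b)) ^ m *
            ((M.H t' * zf z b' / (M.H t * zf z b)) ^ n * a) +
          (M.H t' * zf z b' / (M.H t * zf z b)) ^ n *
            ((M.H t' * zf z b' / (M.H t * zf z b)) ^ m * c) := by ring
      rw [h1]
      exact Subalgebra.add_mem _ (Subalgebra.mul_mem _ (Subalgebra.pow_mem _ hrt m) hn)
        (Subalgebra.mul_mem _ (Subalgebra.pow_mem _ hrt n) hm)
    · rintro a ⟨n, hn⟩
      refine ⟨n + 1, ?_⟩
      have h1 : (M.H t' * zf z b' / (M.H t * zf z b)) ^ (n + 1) * (a * zz z b') =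
          ((M.H t' * zf z b' / (M.H t * zf z b)) ^ n * a) *
            ((M.H t' / M.H t) * (zf z b' / zf z b * zz z b')) := by
        rw [pow_succ, mul_div_mul_comm]; ring
      rw [h1]
      exact Subalgebra.mul_mem _ hn (Subalgebra.mul_mem _ (le_adj _ _ (M.rt t t')) key')
  dn := fun p f hf => ⟨0, trivial⟩
  cv := by
    intro V hV
    obtain ⟨t, ht⟩ := M.cv V hV
    have h1 : ∀ b : Bool, zz z b ∈ V → ∀ f ∈ adj (M.A t) (zz z b), f ∈ V := by
      intro b hb
      exact adj_induction (M.A t) (zz z b) ht (fun a b ha hb => V.add_mem _ _ ha hb)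
        (fun a ha => V.mul_mem _ _ ha hb)
    rcases V.mem_or_inv_mem z with h | h
    · exact ⟨(t, true), h1 true h⟩
    · exact ⟨(t, false), h1 false h⟩
  xA := by
    rintro ⟨t, b⟩ (i | c)
    · exact le_adj _ _ (M.xA t i)
    · change (if b = c then zz z b else 1) ∈ adj (M.A t) (zz z b)
      split_ifs
      · exact self_mem_adj _ _
      · exact Subalgebra.one_mem _
  x0 := by
    rintro ⟨t, b⟩ (i | c)
    · exact M.x0 t i
    · change (if b = c then zz z b else 1) ≠ 0
      split_ifs
      · exact zz_ne hz b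
      · exact one_ne_zero
  gi := by
    rintro ⟨t, b⟩ ⟨t', b'⟩ i
    have key : zf z b' / zf z b ∈ adj (M.A t) (zz z b) := by
      by_cases hb : b = b'
      · subst hb
        rw [div_self (zf_ne hz b)]
        exact Subalgebra.one_mem _
      · rw [zf_div hz hb]
        exact self_mem_adj _ _
    rcases i with i | c
    · obtain ⟨n, hn⟩ := M.gi t t' i
      refine ⟨n, ?_⟩
      change (M.H t' * zf z b' / (M.H t * zf z b)) ^ n * (M.x t' i / M.x t i) ∈
        adj (M.A t) (zz z b)
      have h1 : (M.H t' * zf z b' / (M.H t * zf z b)) ^ n * (M.x t' i / M.x t i) =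
          (M.H t' / M.H t) ^ n * (M.x t' i / M.x t i) * (zf z b' / zf z b) ^ n := by
        rw [mul_div_mul_comm, mul_pow]; ring
      rw [h1]
      exact Subalgebra.mul_mem _ (le_adj _ _ hn) (Subalgebra.pow_mem _ key n)
    · refine ⟨1, ?_⟩
      change (M.H t' * zf z b' / (M.H t * zf z b)) ^ 1 *
        ((if b' = c then zz z b' else 1) / (if b = c then zz z b else 1)) ∈
        adj (M.A t) (zz z b)
      rw [pow_one, mul_div_mul_comm, mul_assoc]
      refine Subalgebra.mul_mem _ (le_adj _ _ (M.rt t t')) ?_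
      by_cases hb : b = b'
      · subst hb
        rw [div_self (zf_ne hz b), one_mul]
        have h2 : (if b = c then zz z b else 1) / (if b = c then zz z b else 1) = (1 : K) := by
          apply div_self
          split_ifs
          · exact zz_ne hz b
          · exact one_ne_zero
        rw [h2]
        exact Subalgebra.one_mem _
      · rw [zf_div hz hb]
        by_cases hc : b = c
        · have hc' : b' ≠ c := fun h => hb (by rw [hc, h])
          rw [if_pos hc, if_neg hc', mul_one_div, div_self (zz_ne hz b)]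
          exact Subalgebra.one_mem _
        · have hc' : b' = c := by
            cases b <;> cases b' <;> cases c <;> simp_all
          rw [if_neg hc, if_pos hc', div_one, zz_mul hz hb]
          exact Subalgebra.one_mem _
  rg p := h p.1 p.2

lemma f1_prod [Fintype I] {z : K} (hz : z ≠ 0) (h : ∀ t b, RegC (adj (M.A t) (zz z b)).toSubring (xx (M.x t) z b)) {g : K} {γ : I → ℤ}
    (hg : F1 M g γ) : F1 (prodLM M hz h) g (Sum.elim γ 0) := by
  rintro ⟨t, b⟩
  obtain ⟨w, hw0, hw, hw', h1⟩ := hg t
  refine ⟨w, hw0, le_adj _ _ hw, le_adj _ _ hw', ?_⟩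
  rw [h1, Fintype.prod_sum_type]
  congr 1
  simp only [Sum.elim_inl, Sum.elim_inr, Pi.zero_apply, zpow_zero, Finset.prod_const_one, mul_one]
  rfl

lemma f1_self [Fintype I] {z : K} (hz : z ≠ 0) (h : ∀ t b, RegC (adj (M.A t) (zz z b)).toSubring (xx (M.x t) z b)) :
    F1 (prodLM M hz h) z (Sum.elim 0 (fun c => if c then 1 else -1)) := by
  rintro ⟨t, b⟩
  refine ⟨1, one_ne_zero, Subalgebra.one_mem _, by rw [inv_one]; exact Subalgebra.one_mem _, ?_⟩
  rw [Fintype.prod_sum_type, one_mul]
  simp only [Sum.elim_inl, Sum.elim_inr, Pi.zero_apply, zpow_zero, Finset.prod_const_one, one_mul,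
    Fintype.prod_bool]
  change z = (if b = true then zz z b else 1) ^ _ * (if b = false then zz z b else 1) ^ _
  cases b
  · simp [zz]
  · simp [zz]

end step


end Pool.Agent.N98.RM
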