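import Pool.Agent.N98.RM.HasRM
import Pool.Agent.N98.RM.Reg2

/-!
Dedekind domains have logarithmic regular models.
-/

set_option autoImplicit false
set_option linter.unusedVariables false
set_option linter.unusedSectionVars false

universe u

open IsLocalRing Pool.Agent.W418.LU2

namespace Pool.Agent.N98.RM

section loc

variable {O F : Type u} [CommRing O] [IsDedekindDomain O] [Field F] [Algebra O F]
  [IsFractionRing O F]

lemma inj_OF : Function.Injective (algebraMap O F) := IsFractionRing.injective O F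

variable {W : Subring F} (hW : Loc W) (hOW : (⊥ : Subalgebra O F).toSubring ≤ W)

lemma mem_bot' (a : O) : algebraMap O F a ∈ (⊥ : Subalgebra O F).toSubring :=
  Subalgebra.algebraMap_mem _ a

include hW hOW in
/-- The local rings of a Dedekind domain. -/
theorem dedekind_lo : ∃ (_ : IsLocalRing (lo W (⊥ : Subalgebra O F).toSubring)),
    IsPrincipalIdealRing (lo W (⊥ : Subalgebra O F).toSubring) := by
  set B := lo W (⊥ : Subalgebra O F).toSubring with hB
  have hloc : IsLocalRing B := isLocalRing_lo hW hOW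
  refine ⟨hloc, ?_⟩
  let j : O →+* B := (algebraMap O F).codRestrict B fun a => le_lo _ _ (mem_bot' a)
  have hj : ∀ a, (j a : F) = algebraMap O F a := fun a => rfl
  let _ : Algebra O B := j.toAlgebra
  let q : Ideal O := (maximalIdeal B).comap j
  have hq : q.IsPrime := Ideal.IsPrime.comap j
  have hqm : ∀ a : O, a ∉ q → IsUnit (j a) := by
    intro a ha
    by_contra hcon
    exact ha hcon
  have hqm' : ∀ a : O, IsUnit (j a) → a ∉ q := fun a ha h => h ha
  have : IsLocalization.AtPrime B q := by
    refine ⟨?_, ?_, ?_⟩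
    · rintro ⟨a, ha⟩
      exact hqm a ha
    · rintro ⟨z, a, ha, b, hb, hb0, hbW, rfl⟩
      obtain ⟨α, rfl⟩ := Algebra.mem_bot.1 ha
      obtain ⟨β, rfl⟩ := Algebra.mem_bot.1 hb
      refine ⟨(α, ⟨β, hqm' _ ?_⟩), Subtype.ext ?_⟩
      · rw [isUnit_lo_iff hOW]
        exact ⟨hb0, hbW⟩
      · change algebraMap O F α * (algebraMap O F β)⁻¹ * algebraMap O F β = algebraMap O F α
        rw [mul_assoc, inv_mul_cancel₀ hb0, mul_one]
    · intro a b hab
      refine ⟨1, ?_⟩
      have h1 : algebraMap O F a = algebraMap O F b := congrArg Subtype.val hab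
      rw [inj_OF (F := F) h1]
  have hD : IsDedekindDomain B := IsLocalization.AtPrime.isDedekindDomain O q B
  refine IsPrincipalIdealRing.of_finite_primes (Set.Finite.subset
    (Set.toFinite {⊥, maximalIdeal B}) ?_)
  intro I hI
  by_cases h : I = ⊥
  · exact Or.inl h
  · right
    have hI' : I.IsPrime := hI
    exact IsLocalRing.eq_maximalIdeal (hI'.isMaximal h)

include hW hOW in
lemma dedekind_total (y : F) : y ∈ lo W (⊥ : Subalgebra O F).toSubring ∨
    y⁻¹ ∈ lo W (⊥ : Subalgebra O F).toSubring := by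
  obtain ⟨h1, h2⟩ := dedekind_lo (O := O) hW hOW
  have hV : ValuationRing (lo W (⊥ : Subalgebra O F).toSubring) := inferInstance
  obtain ⟨a, b, hb, rfl⟩ := IsFractionRing.div_surjective O y
  have hb0 : algebraMap O F b ≠ 0 := fun h =>
    nonZeroDivisors.ne_zero hb (inj_OF (F := F) (h.trans (map_zero _).symm))
  let j : O → lo W (⊥ : Subalgebra O F).toSubring := fun a => ⟨_, le_lo _ _ (mem_bot' a)⟩
  rcases ValuationRing.dvd_total (j b) (j a) with ⟨c, hc⟩ | ⟨c, hc⟩
  · left
    have h3 : algebraMap O F a = algebraMap O F b * c := congrArg Subtype.val hc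
    rw [h3, mul_div_cancel_left₀ _ hb0]
    exact c.2
  · right
    have h3 : algebraMap O F b = algebraMap O F a * c := congrArg Subtype.val hc
    have ha0 : algebraMap O F a ≠ 0 := by
      intro h
      rw [h, zero_mul] at h3
      exact hb0 h3
    rw [inv_div, h3, mul_div_cancel_left₀ _ ha0]
    exact c.2

include hW hOW in
lemma dedekind_eq {A : Subring F} (hA : (⊥ : Subalgebra O F).toSubring ≤ A) (hAW : A ≤ W) :
    lo W A = lo W (⊥ : Subalgebra O F).toSubring := by
  apply le_antisymm _ (lo_mono hA)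
  intro y hy
  rcases dedekind_total (O := O) hW hOW y with h | h
  · exact h
  · by_cases h0 : y = 0
    · rw [h0]
      exact Subring.zero_mem _
    · have h1 := inv_mem_lo hOW h (inv_ne_zero h0) (by
        rw [inv_inv]
        exact lo_le hAW hy)
      rwa [inv_inv] at h1

end loc

section rg

variable {O F : Type u} [CommRing O] [IsDedekindDomain O] [Field F] [Algebra O F]
  [IsFractionRing O F]

/-- Regularity of the charts. -/
theorem rg_ded {A : Subalgebra O F} {I : Type} {x : I → F} (hx0 : ∀ i, x i ≠ 0)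
    (hxA : ∀ i, x i ∈ A) (P : I → Ideal O) (hP : ∀ i, (P i).IsMaximal)
    (hinj : Function.Injective P)
    (hPA : ∀ i, ∀ a ∈ P i, ∃ c ∈ A, algebraMap O F a = x i * c) :
    RegC A.toSubring x := by
  refine ⟨hx0, hxA, fun W hW hAW ι _ f hf => ?_⟩
  have hOA : (⊥ : Subalgebra O F).toSubring ≤ A.toSubring := by
    intro a ha
    obtain ⟨α, rfl⟩ := Algebra.mem_bot.1 ha
    exact A.algebraMap_mem α
  have hOW := hOA.trans hAW
  obtain ⟨hloc, hpid⟩ := dedekind_lo (O := O) hW hOW
  have heq := dedekind_eq (O := O) hW hOW hOA hAW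
  have hloc' : IsLocalRing (lo W A.toSubring) := isLocalRing_lo hW hAW
  have hpid' : IsPrincipalIdealRing (lo W A.toSubring) := by
    rw [heq]
    exact hpid
  have hreg : IsRegularLocalRing (lo W A.toSubring) := inferInstance
  refine ⟨lo_le hAW, fun i => hx0 _, fun i => le_lo _ _ (hxA _), hreg,
    fun y hy h0 h1 => inv_mem_lo hAW hy h0 h1, ?_⟩
  set B := lo W A.toSubring with hB
  let z : ι → B := fun i => ⟨x (f i), le_lo _ _ (hxA _)⟩
  let j : O →+* B := (algebraMap O F).codRestrict B fun a => le_lo _ _ (hOA (mem_bot' a))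
  let q : Ideal O := (maximalIdeal B).comap j
  have hq : q.IsPrime := Ideal.IsPrime.comap j
  -- the prime ideal of the nonunits
  have h1 : ∀ i, z i ∈ maximalIdeal B → P (f i) = q := by
    intro i hi
    refine (hP (f i)).eq_of_le hq.ne_top ?_
    intro a ha
    obtain ⟨c, hc, hac⟩ := hPA (f i) a ha
    change j a ∈ maximalIdeal B
    have e : j a = z i * ⟨c, le_lo _ _ hc⟩ := Subtype.ext hac
    rw [e]
    exact Ideal.mul_mem_right _ _ hi
  have h2 : ∀ i, z i ∈ maximalIdeal B → maximalIdeal B ≤ Ideal.span {z i} := by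
    intro i hi b hb
    have hb' : (b : F) ∈ lo W (⊥ : Subalgebra O F).toSubring := by
      rw [← heq]
      exact b.2
    obtain ⟨a, ha, s, hs, hs0, hsW, hbe⟩ := hb'
    obtain ⟨α, rfl⟩ := Algebra.mem_bot.1 ha
    obtain ⟨σ, rfl⟩ := Algebra.mem_bot.1 hs
    have hsB : (algebraMap O F σ)⁻¹ ∈ B := inv_mem_lo hAW (j σ).2 hs0 hsW
    have e : b = j α * ⟨_, hsB⟩ := Subtype.ext hbe
    have hα : α ∈ q := by
      change j α ∈ maximalIdeal B
      have e1 : j α = b * j σ := by
        apply Subtype.ext
        change algebraMap O F α = b * algebraMap O F σ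
        rw [hbe, mul_assoc, inv_mul_cancel₀ hs0, mul_one]
      rw [e1]
      exact Ideal.mul_mem_right _ _ hb
    rw [← h1 i hi] at hα
    obtain ⟨c, hc, hac⟩ := hPA (f i) α hα
    rw [Ideal.mem_span_singleton, e]
    refine Dvd.dvd.mul_right ⟨⟨c, le_lo _ _ hc⟩, ?_⟩ _
    exact Subtype.ext hac
  intro c hc hs
  have huniq : ∀ i i', z i ∈ maximalIdeal B → z i' ∈ maximalIdeal B → i = i' := fun i i' hi hi' =>
    hf (hinj ((h1 i hi).trans (h1 i' hi').symm))
  intro i
  by_cases hi : z i ∈ maximalIdeal B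
  · have e : ∑ l, c l * z l = c i * z i := by
      classical
      refine Finset.sum_eq_single i (fun l _ hl => ?_) (fun h => absurd (Finset.mem_univ i) h)
      rw [hc l fun h => hl (huniq l i h hi), zero_mul]
    change ∑ l, c l * z l ∈ maximalIdeal B ^ 2 at hs
    rw [e, pow_two] at hs
    have h3 : c i * z i ∈ Ideal.span {z i} * maximalIdeal B :=
      Ideal.mul_mono_left (h2 i hi) hs
    rw [Ideal.mem_span_singleton_mul] at h3
    obtain ⟨y, hy, hyc⟩ := h3
    have hz0 : z i ≠ 0 := fun h => hx0 (f i) (congrArg Subtype.val h)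
    have h4 : c i = y := by
      rw [mul_comm (c i)] at hyc
      exact (mul_left_cancel₀ hz0 hyc).symm
    rw [h4]
    exact hy
  · rw [hc i hi]
    exact Ideal.zero_mem _

end rg

end Pool.Agent.N98.RM
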