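import Pool.Agent.N98.RM.Refine

set_option autoImplicit false
set_option linter.unusedVariables false
set_option linter.unusedSimpArgs false
set_option linter.unusedSectionVars false

universe u v

open Polynomial

namespace Pool.Agent.N98.RM

section defs

variable {k K : Type u} [CommRing k] [Field K] [Algebra k K] {R0 R : Subalgebra k K}
    {T I : Type} [Fintype I] {G : Type}

omit [Fintype I] in
lemma logD_div (D : Derivation k K K) {a b : K} (ha : a ≠ 0) (hb : b ≠ 0) :
    D (a / b) / (a / b) = D a / a - D b / b := by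
  have h1 : D (a / b) = b⁻¹ * D a - a * b⁻¹ ^ 2 * D b := by
    have e : a / b = a * b⁻¹ := div_eq_mul_inv a b
    rw [e, Derivation.leibniz, Derivation.leibniz_inv]
    simp only [smul_eq_mul]
    ring
  rw [h1]
  field_simp

/-- The functions `g a` are units times monomials in the local equations of the divisor. -/
def Fn (M : LM R0 R T I) (g : G → K) (Γ : G → I → ℤ) : Prop :=
  ∀ a t, ∃ w, w ≠ 0 ∧ w ∈ M.A t ∧ w⁻¹ ∈ M.A t ∧ g a = w * ∏ i, M.x t i ^ Γ a i

/-- Logarithmic derivations. -/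
structure LD (M : LM R0 R T I) (D : Derivation k K K) : Prop where
  dA : ∀ t, ∀ f ∈ M.A t, D f ∈ M.A t
  dx : ∀ t i, D (M.x t i) / M.x t i ∈ M.A t

/-- The model is an isomorphism outside of the divisor of `F`, which contains all components of
the divisor. -/
structure Bd (M : LM R0 R T I) (F : K) : Prop where
  F0 : F ≠ 0
  FR : F ∈ R
  FR0 : F ∈ R0
  dF : ∀ t, ∀ f ∈ M.A t, ∃ n : ℕ, F ^ n * f ∈ R
  Fx : ∀ t i, ∃ n : ℕ, F ^ n / M.x t i ∈ M.A t
  FH : ∀ t, ∃ n : ℕ, F ^ n / M.H t ∈ M.A t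

/-- The functions `a` and `b` are comparable on all charts. -/
def Cmp (M : LM R0 R T I) (Γ : G → I → ℤ) (a b : G) : Prop :=
  ∀ t, (∀ i, Γ a i ≤ Γ b i ∨ (M.x t i)⁻¹ ∈ M.A t) ∨ (∀ i, Γ b i ≤ Γ a i ∨ (M.x t i)⁻¹ ∈ M.A t)

/-- The components `i` and `j` are disjoint. -/
def Sep (M : LM R0 R T I) (i j : I) : Prop :=
  ∀ t, ∃ α ∈ M.A t, ∃ β ∈ M.A t, α * M.x t i + β * M.x t j = 1

lemma Sep.symm {M : LM R0 R T I} {i j : I} (h : Sep M i j) : Sep M j i := by
  intro t
  obtain ⟨α, hα, β, hβ, h1⟩ := h t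
  exact ⟨β, hβ, α, hα, by rw [add_comm]; exact h1⟩

variable {T' I' : Type} [Fintype I']

/-- The second model refines the first one. -/
structure Ext (g : G → K) (M : LM R0 R T I) (Γ : G → I → ℤ) (M' : LM R0 R T' I')
    (Γ' : G → I' → ℤ) : Prop where
  fn : Fn M g Γ → Fn M' g Γ'
  ld : ∀ D, LD M D → LD M' D
  bd : ∀ F, Bd M F → Bd M' F
  cmp : ∀ a b, Cmp M Γ a b → Cmp M' Γ' a b

lemma Ext.refl (g : G → K) (M : LM R0 R T I) (Γ : G → I → ℤ) : Ext g M Γ M Γ :=
  ⟨id, fun _ => id, fun _ => id, fun _ _ => id⟩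

lemma Ext.trans {T'' I'' : Type} [Fintype I''] {g : G → K} {M : LM R0 R T I} {Γ : G → I → ℤ}
    {M' : LM R0 R T' I'} {Γ' : G → I' → ℤ} {M'' : LM R0 R T'' I''} {Γ'' : G → I'' → ℤ}
    (h : Ext g M Γ M' Γ') (h' : Ext g M' Γ' M'' Γ'') : Ext g M Γ M'' Γ'' :=
  ⟨fun x => h'.fn (h.fn x), fun D x => h'.ld D (h.ld D x), fun F x => h'.bd F (h.bd F x),
    fun a b x => h'.cmp a b (h.cmp a b x)⟩

lemma Bd.mono_n {M : LM R0 R T I} {F : K} (h : Bd M F) {t : T} {y : K} {n m : ℕ} (hnm : n ≤ m)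
    (hy : F ^ n / y ∈ M.A t) : F ^ m / y ∈ M.A t := by
  obtain ⟨e, rfl⟩ := Nat.exists_eq_add_of_le hnm
  have : F ^ (n + e) / y = F ^ e * (F ^ n / y) := by ring
  rw [this]
  exact (M.A t).mul_mem ((M.A t).pow_mem (M.base t h.FR0) e) hy

end defs

section blowup

variable {k K : Type u} [CommRing k] [Field K] [Algebra k K] {R0 R : Subalgebra k K}
    {T I : Type} [Fintype I] {G : Type} (M : LM R0 R T I) [DecidableEq I] {i j : I}

lemma de_eq (b : Bool) : de i j b = i ∨ de i j b = j := by cases b <;> simp [de]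

lemma nu_eq (b : Bool) : nu i j b = i ∨ nu i j b = j := by cases b <;> simp [nu]

/-- The pullback of the local equations. -/
lemma x_eq_bX (hij : i ≠ j) (p : T × Bool) (l : I) :
    M.x p.1 l = bX M i j p (some l) * (if l = i ∨ l = j then bX M i j p none else 1) := by
  have h6 := M.x0 p.1 (de i j p.2)
  split_ifs with h
  · simp only [bX, bx]
    split_ifs with h4 h5
    · rw [h4]; field_simp
    · rw [one_mul, h5]
    · exfalso
      rcases p with ⟨t, b⟩
      cases b <;> rcases h with rfl | rfl <;> simp_all [nu, de]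
  · rw [not_or] at h
    have h4 : l ≠ nu i j p.2 := by
      rcases nu_eq (i := i) (j := j) p.2 with h1 | h1 <;> rw [h1]
      · exact h.1
      · exact h.2
    have h5 : l ≠ de i j p.2 := by
      rcases de_eq (i := i) (j := j) p.2 with h1 | h1 <;> rw [h1]
      · exact h.1
      · exact h.2
    simp only [bX, bx, if_neg h4, if_neg h5, mul_one]

/-- The exponents on the blowup. -/
def bΓ (i j : I) (γ : I → ℤ) : Option I → ℤ
  | none => γ i + γ j
  | some l => γ l

lemma prod_bX (hij : i ≠ j) (p : T × Bool) (γ : I → ℤ) :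
    ∏ l, M.x p.1 l ^ γ l = ∏ o, bX M i j p o ^ bΓ i j γ o := by
  rw [Fintype.prod_option]
  have h1 : ∀ l, M.x p.1 l ^ γ l = bX M i j p (some l) ^ γ l *
      ((if l = i then bX M i j p none ^ γ i else 1) *
        (if l = j then bX M i j p none ^ γ j else 1)) := by
    intro l
    rw [x_eq_bX M hij p l]
    by_cases hi : l = i
    · subst hi
      rw [if_pos (Or.inl rfl), if_pos rfl, if_neg hij, mul_one, mul_zpow]
    · by_cases hj : l = j
      · subst hj
        rw [if_pos (Or.inr rfl), if_neg hi, if_pos rfl, one_mul, mul_zpow]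
      · rw [if_neg (by tauto), if_neg hi, if_neg hj, one_mul, mul_one, mul_one]
  rw [Finset.prod_congr rfl fun l _ => h1 l, Finset.prod_mul_distrib, Finset.prod_mul_distrib,
    Finset.prod_ite_eq' Finset.univ i, Finset.prod_ite_eq' Finset.univ j,
    if_pos (Finset.mem_univ i), if_pos (Finset.mem_univ j)]
  have h2 : bX M i j p none ^ bΓ i j γ none =
      bX M i j p none ^ γ i * bX M i j p none ^ γ j := by
    change bX M i j p none ^ (γ i + γ j) = _
    rw [zpow_add₀ (bX_ne M i j p none)]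
  rw [h2, mul_comm]
  rfl

/-- Units among the local equations remain units. -/
lemma unit_bX {p : T × Bool} (hij : i ≠ j) {l : I} (hl : (M.x p.1 l)⁻¹ ∈ M.A p.1) :
    (bX M i j p (some l))⁻¹ ∈ bA M i j p ∧
      ((l = i ∨ l = j) → (bX M i j p none)⁻¹ ∈ bA M i j p) := by
  have h0 : ∀ (y z : K), y ≠ 0 → z ≠ 0 → y ∈ bA M i j p → z ∈ bA M i j p →
      (z * y)⁻¹ ∈ bA M i j p → z⁻¹ ∈ bA M i j p ∧ y⁻¹ ∈ bA M i j p := by
    intro y z hy hz hy' hz' hyz
    constructor
    · have : z⁻¹ = (z * y)⁻¹ * y := by field_simp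
      rw [this]
      exact (bA M i j p).mul_mem hyz hy'
    · have : y⁻¹ = (z * y)⁻¹ * z := by field_simp
      rw [this]
      exact (bA M i j p).mul_mem hyz hz'
  have h1 := x_eq_bX M hij p l
  by_cases h : l = i ∨ l = j
  · rw [if_pos h] at h1
    rw [h1] at hl
    have h2 := h0 _ _ (bX_ne M i j p none) (bX_ne M i j p (some l)) (bX_mem M i j hij p _)
      (bX_mem M i j hij p _) (le_bA M i j p hl)
    exact ⟨h2.1, fun _ => h2.2⟩
  · rw [if_neg h, mul_one] at h1
    rw [h1] at hl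
    exact ⟨le_bA M i j p hl, fun h' => absurd h' h⟩

lemma ext_blowup (hij : i ≠ j) (g : G → K) (Γ : G → I → ℤ) (M' : LM R0 R (T × Bool) (Option I))
    (hA : M'.A = bA M i j) (hx : M'.x = bX M i j)
    (hH : ∃ N : ℕ, ∀ p : T × Bool, M'.H p = M.H p.1 ^ N * M.x p.1 (de i j p.2)) :
    Ext g M Γ M' (fun a => bΓ i j (Γ a)) where
  fn := by
    intro h a p
    obtain ⟨w, hw0, hw, hw', hg⟩ := h a p.1
    rw [hA, hx]
    refine ⟨w, hw0, le_bA M i j p hw, le_bA M i j p hw', ?_⟩
    rw [hg, prod_bX M hij p]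
  ld := by
    intro D hD
    have hv : ∀ p : T × Bool, D (vv M i j p.1 p.2) / vv M i j p.1 p.2 ∈ M.A p.1 := by
      intro p
      have h1 : D (vv M i j p.1 p.2) / vv M i j p.1 p.2 =
          D (M.x p.1 (nu i j p.2)) / M.x p.1 (nu i j p.2) -
          D (M.x p.1 (de i j p.2)) / M.x p.1 (de i j p.2) := by
        exact logD_div D (M.x0 p.1 (nu i j p.2)) (M.x0 p.1 (de i j p.2))
      rw [h1]
      exact (M.A p.1).sub_mem (hD.dx _ _) (hD.dx _ _)
    constructor
    · rw [hA]
      intro p f hf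
      refine adj_induction (M.A p.1) (vv M i j p.1 p.2)
        (p := fun f => f ∈ bA M i j p ∧ D f ∈ bA M i j p) ?_ ?_ ?_ f hf |>.2
      · intro a ha
        exact ⟨le_bA M i j p ha, le_bA M i j p (hD.dA _ _ ha)⟩
      · rintro a b ⟨ha, ha'⟩ ⟨hb, hb'⟩
        exact ⟨(bA M i j p).add_mem ha hb, by rw [map_add]; exact (bA M i j p).add_mem ha' hb'⟩
      · rintro a ⟨ha, ha'⟩
        refine ⟨(bA M i j p).mul_mem ha (vv_mem M i j p), ?_⟩
        rw [Derivation.leibniz, smul_eq_mul, smul_eq_mul]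
        refine (bA M i j p).add_mem ((bA M i j p).mul_mem ha ?_)
          ((bA M i j p).mul_mem (vv_mem M i j p) ha')
        have h2 : D (vv M i j p.1 p.2) = D (vv M i j p.1 p.2) / vv M i j p.1 p.2 *
            vv M i j p.1 p.2 := by
          have : vv M i j p.1 p.2 ≠ 0 := div_ne_zero (M.x0 _ _) (M.x0 _ _)
          field_simp
        rw [h2]
        exact (bA M i j p).mul_mem (le_bA M i j p (hv p)) (vv_mem M i j p)
    · rw [hA, hx]
      rintro p (_ | l)
      · exact le_bA M i j p (hD.dx _ _)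
      · simp only [bX, bx]
        split_ifs
        · exact le_bA M i j p (hv p)
        · rw [Derivation.map_one_eq_zero, zero_div]
          exact (bA M i j p).zero_mem
        · exact le_bA M i j p (hD.dx _ _)
  bd := by
    intro F hF
    obtain ⟨N, hN⟩ := hH
    refine ⟨hF.F0, hF.FR, hF.FR0, ?_, ?_, ?_⟩
    · rw [hA]
      intro p f hf
      refine adj_induction (M.A p.1) (vv M i j p.1 p.2)
        (p := fun f => ∃ n : ℕ, F ^ n * f ∈ R) (fun a ha => hF.dF _ a ha) ?_ ?_ f hf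
      · rintro a b ⟨n, hn⟩ ⟨m, hm⟩
        refine ⟨n + m, ?_⟩
        have : F ^ (n + m) * (a + b) = F ^ m * (F ^ n * a) + F ^ n * (F ^ m * b) := by ring
        rw [this]
        exact R.add_mem (R.mul_mem (R.pow_mem hF.FR m) hn) (R.mul_mem (R.pow_mem hF.FR n) hm)
      · rintro a ⟨n, hn⟩
        obtain ⟨c, hc⟩ := hF.Fx p.1 (de i j p.2)
        obtain ⟨d, hd⟩ := hF.dF p.1 _ ((M.A p.1).mul_mem (M.xA p.1 (nu i j p.2)) hc)
        refine ⟨n + (d + c), ?_⟩
        have : F ^ (n + (d + c)) * (a * vv M i j p.1 p.2) = (F ^ n * a) *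
            (F ^ d * (M.x p.1 (nu i j p.2) * (F ^ c / M.x p.1 (de i j p.2)))) := by
          rw [vv]; ring
        rw [this]
        exact R.mul_mem hn hd
    · rw [hA, hx]
      rintro p (_ | l)
      · obtain ⟨n, hn⟩ := hF.Fx p.1 (de i j p.2)
        exact ⟨n, le_bA M i j p hn⟩
      · obtain ⟨n, hn⟩ := hF.Fx p.1 l
        refine ⟨n, ?_⟩
        have h1 := x_eq_bX M hij p l
        have h2 : F ^ n / bX M i j p (some l) = F ^ n / M.x p.1 l *
            (if l = i ∨ l = j then bX M i j p none else 1) := by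
          rw [h1]
          have e1 := bX_ne M i j p (some l)
          split_ifs
          · have e2 := bX_ne M i j p none
            field_simp
          · rw [mul_one, mul_one]
        rw [h2]
        refine (bA M i j p).mul_mem (le_bA M i j p hn) ?_
        split_ifs
        · exact bX_mem M i j hij p none
        · exact (bA M i j p).one_mem
    · rw [hA]
      intro p
      obtain ⟨n, hn⟩ := hF.FH p.1
      obtain ⟨m, hm⟩ := hF.Fx p.1 (de i j p.2)
      refine ⟨n * N + m, ?_⟩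
      rw [hN]
      have : F ^ (n * N + m) / (M.H p.1 ^ N * M.x p.1 (de i j p.2)) =
          (F ^ n / M.H p.1) ^ N * (F ^ m / M.x p.1 (de i j p.2)) := by
        rw [pow_add, pow_mul, div_pow, div_mul_div_comm]
      rw [this]
      exact le_bA M i j p ((M.A p.1).mul_mem ((M.A p.1).pow_mem hn N) hm)
  cmp := by
    intro a b h p
    rw [hA, hx]
    have key : ∀ γ γ' : I → ℤ, (∀ l, γ l ≤ γ' l ∨ (M.x p.1 l)⁻¹ ∈ M.A p.1) →
        ∀ o, bΓ i j γ o ≤ bΓ i j γ' o ∨ (bX M i j p o)⁻¹ ∈ bA M i j p := by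
      rintro γ γ' h (_ | l)
      · rcases h i with h1 | h1
        · rcases h j with h2 | h2
          · left
            exact add_le_add h1 h2
          · right
            exact (unit_bX M hij h2).2 (Or.inr rfl)
        · right
          exact (unit_bX M hij h1).2 (Or.inl rfl)
      · rcases h l with h1 | h1
        · left; exact h1
        · right
          exact (unit_bX M hij h1).1
    rcases h p.1 with h1 | h1
    · left; exact key _ _ h1
    · right; exact key _ _ h1

/-- Separation on the blowup. -/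
lemma sep_blowup (hij : i ≠ j) (M' : LM R0 R (T × Bool) (Option I))
    (hA : M'.A = bA M i j) (hx : M'.x = bX M i j) :
    Sep M' (some i) (some j) ∧ (∀ l l', Sep M l l' → Sep M' (some l) (some l')) ∧
    (∀ l, Sep M i l → Sep M' none (some l)) ∧ (∀ l, Sep M j l → Sep M' none (some l)) := by
  have hc : ∀ (p : T × Bool) (l : I), ∃ c ∈ bA M i j p, M.x p.1 l =
      c * bX M i j p (some l) := by
    intro p l
    refine ⟨if l = i ∨ l = j then bX M i j p none else 1, ?_, ?_⟩
    · split_ifs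
      · exact bX_mem M i j hij p none
      · exact (bA M i j p).one_mem
    · rw [mul_comm]; exact x_eq_bX M hij p l
  have hc' : ∀ (p : T × Bool) (l : I), (l = i ∨ l = j) → ∃ c ∈ bA M i j p, M.x p.1 l =
      c * bX M i j p none := by
    intro p l hl
    refine ⟨bX M i j p (some l), bX_mem M i j hij p _, ?_⟩
    have := x_eq_bX M hij p l
    rwa [if_pos hl] at this
  refine ⟨?_, ?_, ?_, ?_⟩
  · intro p
    rw [hA, hx]
    rcases p with ⟨t, b⟩
    cases b
    · refine ⟨1, (bA M i j _).one_mem, 0, (bA M i j _).zero_mem, ?_⟩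
      simp [bX, bx, nu, de, hij]
    · refine ⟨0, (bA M i j _).zero_mem, 1, (bA M i j _).one_mem, ?_⟩
      simp [bX, bx, nu, de, hij.symm]
  · intro l l' h p
    rw [hA, hx]
    obtain ⟨α, hα, β, hβ, h1⟩ := h p.1
    obtain ⟨c, hc1, hc2⟩ := hc p l
    obtain ⟨c', hc1', hc2'⟩ := hc p l'
    refine ⟨α * c, (bA M i j p).mul_mem (le_bA M i j p hα) hc1, β * c',
      (bA M i j p).mul_mem (le_bA M i j p hβ) hc1', ?_⟩
    rw [← h1, hc2, hc2']; ring
  · intro l h p
    rw [hA, hx]
    obtain ⟨α, hα, β, hβ, h1⟩ := h p.1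
    obtain ⟨c, hc1, hc2⟩ := hc' p i (Or.inl rfl)
    obtain ⟨c', hc1', hc2'⟩ := hc p l
    refine ⟨α * c, (bA M i j p).mul_mem (le_bA M i j p hα) hc1, β * c',
      (bA M i j p).mul_mem (le_bA M i j p hβ) hc1', ?_⟩
    rw [← h1, hc2, hc2']; ring
  · intro l h p
    rw [hA, hx]
    obtain ⟨α, hα, β, hβ, h1⟩ := h p.1
    obtain ⟨c, hc1, hc2⟩ := hc' p j (Or.inr rfl)
    obtain ⟨c', hc1', hc2'⟩ := hc p l
    refine ⟨α * c, (bA M i j p).mul_mem (le_bA M i j p hα) hc1, β * c',
      (bA M i j p).mul_mem (le_bA M i j p hβ) hc1', ?_⟩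
    rw [← h1, hc2, hc2']; ring

end blowup

section refine

variable {k K : Type u} [CommRing k] [Field K] [Algebra k K] {R0 R : Subalgebra k K}
    {T I : Type} [Fintype I] {G : Type} (M : LM R0 R T I) {J : Type} (h : T → J → K)

lemma ext_refine (hmem : ∀ t b, h t b ∈ M.A t) (hne : ∀ t b, h t b ≠ 0)
    (hbd : ∀ F, Bd M F → ∀ t b, ∃ n : ℕ, F ^ n / h t b ∈ M.A t)
    (g : G → K) (Γ : G → I → ℤ) (M' : LM R0 R (T × J) I)
    (hA : M'.A = rA M h) (hx : M'.x = fun p => M.x p.1)
    (hH : ∃ N : ℕ, ∀ p : T × J, M'.H p = M.H p.1 ^ N * h p.1 p.2) :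
    Ext g M Γ M' Γ where
  fn := by
    intro hh a p
    obtain ⟨w, hw0, hw, hw', hg⟩ := hh a p.1
    rw [hA, hx]
    exact ⟨w, hw0, le_rA M h p hw, le_rA M h p hw', hg⟩
  ld := by
    intro D hD
    constructor
    · rw [hA]
      intro p f hf
      refine adj_induction (M.A p.1) (h p.1 p.2)⁻¹
        (p := fun f => f ∈ rA M h p ∧ D f ∈ rA M h p) ?_ ?_ ?_ f hf |>.2
      · intro a ha
        exact ⟨le_rA M h p ha, le_rA M h p (hD.dA _ _ ha)⟩
      · rintro a b ⟨ha, ha'⟩ ⟨hb, hb'⟩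
        exact ⟨(rA M h p).add_mem ha hb, by rw [map_add]; exact (rA M h p).add_mem ha' hb'⟩
      · rintro a ⟨ha, ha'⟩
        refine ⟨(rA M h p).mul_mem ha (inv_mem_rA M h p), ?_⟩
        rw [Derivation.leibniz, smul_eq_mul, smul_eq_mul]
        refine (rA M h p).add_mem ((rA M h p).mul_mem ha ?_)
          ((rA M h p).mul_mem (inv_mem_rA M h p) ha')
        rw [Derivation.leibniz_inv, smul_eq_mul]
        refine (rA M h p).mul_mem ((rA M h p).neg_mem ?_)
          (le_rA M h p (hD.dA _ _ (hmem _ _)))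
        exact (rA M h p).pow_mem (inv_mem_rA M h p) 2
    · rw [hA, hx]
      intro p i
      exact le_rA M h p (hD.dx _ _)
  bd := by
    intro F hF
    obtain ⟨N, hN⟩ := hH
    refine ⟨hF.F0, hF.FR, hF.FR0, ?_, ?_, ?_⟩
    · rw [hA]
      intro p f hf
      refine adj_induction (M.A p.1) (h p.1 p.2)⁻¹
        (p := fun f => ∃ n : ℕ, F ^ n * f ∈ R) (fun a ha => hF.dF _ a ha) ?_ ?_ f hf
      · rintro a b ⟨n, hn⟩ ⟨m, hm⟩
        refine ⟨n + m, ?_⟩
        have : F ^ (n + m) * (a + b) = F ^ m * (F ^ n * a) + F ^ n * (F ^ m * b) := by ring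
        rw [this]
        exact R.add_mem (R.mul_mem (R.pow_mem hF.FR m) hn) (R.mul_mem (R.pow_mem hF.FR n) hm)
      · rintro a ⟨n, hn⟩
        obtain ⟨c, hc⟩ := hbd F hF p.1 p.2
        obtain ⟨d, hd⟩ := hF.dF p.1 _ hc
        refine ⟨n + (d + c), ?_⟩
        have : F ^ (n + (d + c)) * (a * (h p.1 p.2)⁻¹) = (F ^ n * a) *
            (F ^ d * (F ^ c / h p.1 p.2)) := by ring
        rw [this]
        exact R.mul_mem hn hd
    · rw [hA, hx]
      intro p i
      obtain ⟨n, hn⟩ := hF.Fx p.1 i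
      exact ⟨n, le_rA M h p hn⟩
    · rw [hA]
      intro p
      obtain ⟨n, hn⟩ := hF.FH p.1
      refine ⟨n * N, ?_⟩
      rw [hN]
      have : F ^ (n * N) / (M.H p.1 ^ N * h p.1 p.2) =
          (F ^ n / M.H p.1) ^ N * (h p.1 p.2)⁻¹ := by
        rw [pow_mul, div_pow, div_eq_mul_inv, mul_inv]
        ring
      rw [this]
      exact (rA M h p).mul_mem (le_rA M h p ((M.A p.1).pow_mem hn N)) (inv_mem_rA M h p)
  cmp := by
    intro a b hh p
    rw [hA, hx]
    rcases hh p.1 with h1 | h1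
    · left
      intro i
      exact (h1 i).imp_right fun h2 => le_rA M h p h2
    · right
      intro i
      exact (h1 i).imp_right fun h2 => le_rA M h p h2

end refine

end Pool.Agent.N98.RM
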