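import Pool.Agent.N98.RM.Basic

/-!
Fields with logarithmic regular models.
-/

set_option autoImplicit false

universe u

namespace Pool.Agent.N98.RM

/-- Every finite family of nonzero elements of `E` is locally monomial on some regular projective
model over `k` with normal crossings divisor. -/
def HasRM (k E : Type u) [CommRing k] [Field E] [Algebra k E] : Prop :=
  ∀ (H : Type) [Fintype H] (h : H → E), (∀ t, h t ≠ 0) →
    ∃ (T I : Type) (_ : Finite T) (_ : Fintype I) (M : LM (⊥ : Subalgebra k E) ⊤ T I),
      (∀ t, IsB M (h t)) ∧ Frc M

end Pool.Agent.N98.RM
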