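import Pool.Agent.N98.RM.Princ

set_option autoImplicit false
set_option linter.unusedVariables false
set_option linter.unusedSimpArgs false
set_option linter.unusedSectionVars false

universe u v

open Polynomial

namespace Pool.Agent.N98.RM

section mono

variable {k K : Type u} [CommRing k] [Field K] [Algebra k K] {R0 R : Subalgebra k K}
    {T I : Type} [Fintype I]

/-- Integral powers. -/
lemma zpow_mem_of {A : Subalgebra k K} {y : K} (h : y ∈ A) {n : ℤ} (hn : 0 ≤ n ∨ y⁻¹ ∈ A) :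
    y ^ n ∈ A := by
  rcases le_or_gt 0 n with h0 | h0
  · obtain ⟨m, rfl⟩ := Int.eq_ofNat_of_zero_le h0
    rw [zpow_natCast]
    exact A.pow_mem h m
  · have h1 : y⁻¹ ∈ A := hn.resolve_left (by omega)
    obtain ⟨m, hm⟩ := Int.eq_ofNat_of_zero_le (show 0 ≤ -n by omega)
    have h2 : n = -(m : ℤ) := by omega
    rw [h2, zpow_neg, zpow_natCast, ← inv_pow]
    exact A.pow_mem h1 m

/-- The relation underlying comparability. -/
def Le (M : LM R0 R T I) (t : T) (γ γ' : I → ℤ) : Prop :=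
  ∀ i, γ i ≤ γ' i ∨ (M.x t i)⁻¹ ∈ M.A t

lemma Le.trans' {M : LM R0 R T I} {t : T} {γ γ' γ'' : I → ℤ} (h : Le M t γ γ')
    (h' : Le M t γ' γ'') : Le M t γ γ'' := by
  intro i
  rcases h i with h1 | h1
  · rcases h' i with h2 | h2
    · exact Or.inl (h1.trans h2)
    · exact Or.inr h2
  · exact Or.inr h1

lemma exists_min {ι : Type} [Finite ι] [Nonempty ι] (M : LM R0 R T I) (t : T) (Γ : ι → I → ℤ)
    (h : ∀ a b, Cmp M Γ a b) : ∃ a, ∀ b, Le M t (Γ a) (Γ b) := by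
  classical
  have : Fintype ι := Fintype.ofFinite ι
  have key : ∀ s : Finset ι, s.Nonempty → ∃ a, ∀ b ∈ s, Le M t (Γ a) (Γ b) := by
    intro s hs
    induction hs using Finset.Nonempty.cons_induction with
    | singleton a => exact ⟨a, fun b hb => by rw [Finset.mem_singleton.1 hb]; exact fun i => Or.inl le_rfl⟩
    | cons a s ha hs ih =>
      obtain ⟨c, hc⟩ := ih
      rcases h a c t with h1 | h1
      · refine ⟨a, fun b hb => ?_⟩
        rcases Finset.mem_cons.1 hb with rfl | hb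
        · exact fun i => Or.inl le_rfl
        · exact Le.trans' h1 (hc b hb)
      · refine ⟨c, fun b hb => ?_⟩
        rcases Finset.mem_cons.1 hb with rfl | hb
        · exact h1
        · exact hc b hb
  obtain ⟨a, ha⟩ := key Finset.univ Finset.univ_nonempty
  exact ⟨a, fun b => ha b (Finset.mem_univ b)⟩

lemma prod_mem_of_le (M : LM R0 R T I) (t : T) (γ γ' : I → ℤ) (h : Le M t γ γ') :
    ∏ i, M.x t i ^ (γ' i - γ i) ∈ M.A t := by
  refine (M.A t).prod_mem fun i _ => zpow_mem_of (M.xA t i) ?_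
  exact (h i).imp_left fun h1 => by omega

lemma prod_sub (M : LM R0 R T I) (t : T) (γ γ' : I → ℤ) :
    (∏ i, M.x t i ^ γ' i) = (∏ i, M.x t i ^ (γ' i - γ i)) * ∏ i, M.x t i ^ γ i := by
  rw [← Finset.prod_mul_distrib]
  refine Finset.prod_congr rfl fun i _ => ?_
  rw [← zpow_add₀ (M.x0 t i)]
  congr 1
  ring

lemma prod_ne (M : LM R0 R T I) (t : T) (γ : I → ℤ) : (∏ i, M.x t i ^ γ i) ≠ 0 :=
  Finset.prod_ne_zero_iff.2 fun i _ => zpow_ne_zero _ (M.x0 t i)

lemma div_mem_of_le {ι : Type} (M : LM R0 R T I) (t : T) (m : ι → K) (Γ : ι → I → ℤ)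
    (hF : Fn M m Γ) {a b : ι} (h : Le M t (Γ a) (Γ b)) : m b / m a ∈ M.A t := by
  obtain ⟨w, hw0, hw, hw', h1⟩ := hF a t
  obtain ⟨v, hv0, hv, hv', h2⟩ := hF b t
  have : m b / m a = v * w⁻¹ * ∏ i, M.x t i ^ (Γ b i - Γ a i) := by
    rw [h1, h2, prod_sub M t (Γ a) (Γ b)]
    have := prod_ne M t (Γ a)
    field_simp
  rw [this]
  exact (M.A t).mul_mem ((M.A t).mul_mem hv hw') (prod_mem_of_le M t _ _ h)

lemma Fn.ne {ι : Type} [Nonempty T] {M : LM R0 R T I} {m : ι → K} {Γ : ι → I → ℤ}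
    (hF : Fn M m Γ) (a : ι) : m a ≠ 0 := by
  obtain ⟨t⟩ := ‹Nonempty T›
  obtain ⟨w, hw0, hw, hw', h1⟩ := hF a t
  rw [h1]
  exact mul_ne_zero hw0 (prod_ne M t _)

lemma nonempty_T (M : LM R0 R T I) : Nonempty T := by
  obtain ⟨t, -⟩ := M.cv ⊤ (fun _ _ => trivial)
  exact ⟨t⟩

end mono

/-- All charts have the fraction field `K`. -/
def Frc {k K : Type u} [CommRing k] [Field K] [Algebra k K] {R0 R : Subalgebra k K} {T I : Type}
    (M : LM R0 R T I) : Prop := ∀ t (x : K), ∃ a ∈ M.A t, ∃ b ∈ M.A t, b ≠ 0 ∧ x = a * b⁻¹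

end Pool.Agent.N98.RM
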