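import Pool.Agent.W418.LU2.Pair

/-!
# Regular domains are integrally closed
-/

set_option autoImplicit false
set_option linter.unusedVariables false

universe u v

open IsLocalRing Pool.Agent.W418.LU2

namespace Pool.Agent.N98.RM

/-- In a regular local ring of dimension at least two an element `z` of the fraction field with
`z 𝔪 ⊆ S` lies in `S`. -/
theorem mem_of_depth {S K : Type u} [CommRing S] [IsRegularLocalRing S] [IsDomain S] [Field K]
    [Algebra S K] (hinj : Function.Injective (algebraMap S K)) (z : K)
    (hz : ∀ y ∈ maximalIdeal S, ∃ e : S, algebraMap S K y * z = algebraMap S K e)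
    (hS : ¬ (maximalIdeal S).IsPrincipal) : ∃ e : S, z = algebraMap S K e := by
  classical
  have h0 : Ind (fun i : Empty => (i.elim : S)) :=
    ⟨fun i => i.elim, fun c _ i => i.elim⟩
  obtain ⟨m, w, hw, hd⟩ := h0.extend
  have hw' : Ideal.span (Set.range w) = maximalIdeal S := by
    rw [← hw]
    congr 1
    ext y
    constructor
    · rintro ⟨i, rfl⟩
      exact ⟨Sum.inr i, rfl⟩
    · rintro ⟨i | i, rfl⟩
      · exact i.elim
      · exact ⟨i, rfl⟩
  have hind : Ind w := ind_of_span hw' (by
    rw [hd, Fintype.card_fin, Fintype.card_eq_zero, zero_add])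
  have hm : 2 ≤ m := by
    by_contra hlt
    apply hS
    rcases Nat.lt_or_ge m 1 with h | h
    · obtain rfl : m = 0 := by omega
      rw [← hw']
      refine ⟨0, ?_⟩
      have : Set.range w = ∅ := Set.range_eq_empty w
      rw [this, Ideal.span_empty]
      simp
    · obtain rfl : m = 1 := by omega
      rw [← hw']
      refine ⟨w 0, ?_⟩
      have : Set.range w = {w 0} := by
        ext y
        constructor
        · rintro ⟨i, rfl⟩
          rw [Subsingleton.elim i 0]
          rfl
        · rintro rfl
          exact ⟨0, rfl⟩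
      rw [this]
  let i0 : Fin m := ⟨0, by omega⟩
  let i1 : Fin m := ⟨1, by omega⟩
  have hne : i0 ≠ i1 := by
    intro h
    have := congrArg Fin.val h
    simp [i0, i1] at this
  obtain ⟨e, he⟩ := hz (w i0) (hind.1 i0)
  obtain ⟨f, hf⟩ := hz (w i1) (hind.1 i1)
  have h1 : w i1 * e = w i0 * f := by
    apply hinj
    rw [map_mul, map_mul, ← he, ← hf]
    ring
  have h2 : w i0 ∣ w i1 * e := ⟨f, h1⟩
  rcases (hind.prime i0).dvd_or_dvd h2 with h3 | ⟨e', rfl⟩
  · exact absurd h3 (hind.not_dvd hne)
  · refine ⟨e', ?_⟩
    rw [map_mul] at he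
    exact mul_left_cancel₀ (fun h => hind.ne_zero i0 (hinj (h.trans (map_zero _).symm))) he

/-- Regular domains are integrally closed. -/
theorem isIntegrallyClosed_of_regular (R : Type u) [CommRing R] [IsDomain R] [IsRegularRing R] :
    IsIntegrallyClosed R := by
  classical
  let K := FractionRing R
  rw [isIntegrallyClosed_iff K]
  intro z hz
  by_contra hcon
  push Not at hcon
  let C := integralClosure R K
  let N : Submodule R C := LinearMap.range (Algebra.linearMap R C)
  have hzN : (Submodule.Quotient.mk (⟨z, hz⟩ : C) : C ⧸ N) ≠ 0 := by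
    intro h
    rw [Submodule.Quotient.mk_eq_zero] at h
    obtain ⟨y, hy⟩ := h
    exact hcon y (congrArg Subtype.val hy)
  obtain ⟨q, hq, -⟩ := exists_le_isAssociatedPrime_of_isNoetherianRing R
    (Submodule.Quotient.mk (⟨z, hz⟩ : C) : C ⧸ N) hzN
  obtain ⟨hqp, y', hy'⟩ := isAssociatedPrime_iff.1 hq
  obtain ⟨y, rfl⟩ := Submodule.Quotient.mk_surjective N y'
  have hmem : ∀ a : R, a ∈ q ↔ ∃ b : R, algebraMap R K a * y = algebraMap R K b := by
    intro a
    rw [hy', Submodule.mem_colon_singleton, Submodule.mem_bot, ← Submodule.Quotient.mk_smul,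
      Submodule.Quotient.mk_eq_zero]
    constructor
    · rintro ⟨b, hb⟩
      refine ⟨b, ?_⟩
      have h1 := congrArg Subtype.val hb
      rw [Algebra.linearMap_apply] at h1
      rw [← Algebra.smul_def]
      exact h1.symm
    · rintro ⟨b, hb⟩
      refine ⟨b, Subtype.ext ?_⟩
      change algebraMap R K b = a • (y : K)
      rw [← hb, Algebra.smul_def]
  let S := Localization.AtPrime q
  let _ : Algebra S K := IsLocalization.localizationAlgebraOfSubmonoidLe S K q.primeCompl (nonZeroDivisors R)
    q.primeCompl_le_nonZeroDivisors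
  have htow : IsScalarTower R S K := IsLocalization.localization_isScalarTower_of_submonoid_le _ _ _ _ _
  have hfr : IsFractionRing S K :=
    IsFractionRing.isFractionRing_of_isDomain_of_isLocalization q.primeCompl S K
  have hSd : IsDomain S := IsLocalization.isDomain_localization q.primeCompl_le_nonZeroDivisors
  have hinj : Function.Injective (algebraMap S K) := IsFractionRing.injective S K
  have hreg : IsRegularLocalRing S := inferInstance
  -- `y` does not lie in `S`
  have hyS : ∀ e : S, (y : K) ≠ algebraMap S K e := by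
    intro e he
    obtain ⟨a, s, rfl⟩ := IsLocalization.exists_mk'_eq q.primeCompl e
    apply s.2
    refine (hmem _).2 ⟨a, ?_⟩
    rw [he, IsScalarTower.algebraMap_apply R S K, ← map_mul,
      IsLocalization.mk'_spec', ← IsScalarTower.algebraMap_apply]
  by_cases hp : (maximalIdeal S).IsPrincipal
  · have h1 : IsPrincipalIdealRing S :=
      ((tfae_of_isNoetherianRing_of_isLocalRing_of_isDomain S).out 4 0).1 hp
    have h2 : IsIntegrallyClosed S := inferInstance
    have h3 : IsIntegral S (y : K) := IsIntegral.tower_top y.2
    obtain ⟨e, he⟩ := (isIntegrallyClosed_iff K).1 h2 h3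
    exact hyS e he.symm
  · obtain ⟨e, he⟩ := mem_of_depth hinj (y : K) (by
      intro x hx
      obtain ⟨a, s, rfl⟩ := IsLocalization.exists_mk'_eq q.primeCompl x
      have ha : a ∈ q := by
        have h1 := (IsLocalization.AtPrime.mk'_mem_maximal_iff S q a s).1 hx
        exact h1
      obtain ⟨b, hb⟩ := (hmem a).1 ha
      refine ⟨IsLocalization.mk' S b s, ?_⟩
      have hs : algebraMap S K (algebraMap R S s) ≠ 0 := by
        rw [← IsScalarTower.algebraMap_apply]
        intro h
        apply s.2
        have : (s : R) = 0 := IsFractionRing.injective R K (h.trans (map_zero _).symm)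
        rw [this]
        exact q.zero_mem
      apply mul_left_cancel₀ hs
      rw [← mul_assoc, ← map_mul, ← map_mul, IsLocalization.mk'_spec', IsLocalization.mk'_spec',
        ← IsScalarTower.algebraMap_apply, ← IsScalarTower.algebraMap_apply]
      exact hb) hp
    exact hyS e he

end Pool.Agent.N98.RM
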