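import Pool.Agent.N98.RM.SchZ

/-!
Models of varieties of bounded degree over number fields.
-/

set_option autoImplicit false
set_option linter.unusedVariables false
set_option linter.unusedSectionVars false

open AlgebraicGeometry CategoryTheory Pool.Agent.N98

namespace Pool.Agent.N98.RM

/-- Models over the localization of a Dedekind domain. -/
theorem exists_num {O F K : Type} [CommRing O] [IsDedekindDomain O] [Module.Finite ℤ O] [Field F]
    [Algebra O F] [IsFractionRing O F] [CharZero F] [Field K] [Algebra F K] {m : ℕ} (x : Fin m → K)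
    (htop : IntermediateField.adjoin F (Set.range x) = ⊤) (r : ℕ)
    (htr : Algebra.trdeg F K = r) (δ C0 : ℕ)
    (hδ : ∀ t : ℕ, r.factorial * Module.finrank F (img F x t) ≤ δ * (t + C0) ^ r) :
    ∃ (X' : Scheme.{0}) (_ : IsIntegral X') (g : X' ⟶ Spec (CommRingCat.of ℤ)),
      IsProper g ∧
      (∀ x : X', IsUnit (((δ ^ 2 ^ r).factorial : ℕ) : X'.presheaf.stalk x) →
        IsRegularLocalRing (X'.presheaf.stalk x)) ∧
      Nonempty (X'.functionField ≃+* K) := by
  set N := (δ ^ 2 ^ r).factorial with hN
  have hN0 : N ≠ 0 := Nat.factorial_ne_zero _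
  let ON := Localization.Away ((N : ℕ) : O)
  have hNF : algebraMap O F ((N : ℕ) : O) ≠ 0 := by
    rw [map_natCast]
    exact Nat.cast_ne_zero.2 hN0
  have hNO : ((N : ℕ) : O) ≠ 0 := fun h => hNF (by rw [h, map_zero])
  have hle : Submonoid.powers ((N : ℕ) : O) ≤ nonZeroDivisors O :=
    powers_le_nonZeroDivisors_of_noZeroDivisors hNO
  let φ : ON →+* F := IsLocalization.Away.lift (S := ON) ((N : ℕ) : O) (IsUnit.mk0 _ hNF)
  let _ : Algebra ON F := φ.toAlgebra
  have h1 : IsScalarTower O ON F := IsScalarTower.of_algebraMap_eq fun a =>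
    (IsLocalization.Away.lift_eq ((N : ℕ) : O) (IsUnit.mk0 _ hNF) a).symm
  have h2 : IsDomain ON := IsLocalization.isDomain_localization hle
  have h3 : IsDedekindDomain ON := IsLocalization.isDedekindDomain O hle ON
  have h4 : IsFractionRing ON F :=
    IsFractionRing.isFractionRing_of_isDomain_of_isLocalization
      (Submonoid.powers ((N : ℕ) : O)) ON F
  let _ : Algebra ON K := ((algebraMap F K).comp φ).toAlgebra
  have h5 : IsScalarTower ON F K := IsScalarTower.of_algebraMap_eq fun _ => rfl
  let _ : Algebra O K := ((algebraMap F K).comp (algebraMap O F)).toAlgebra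
  have h6 : IsScalarTower O ON K := IsScalarTower.of_algebraMap_eq fun a => by
    change algebraMap F K (algebraMap O F a) = algebraMap F K (algebraMap ON F (algebraMap O ON a))
    rw [← IsScalarTower.algebraMap_apply O ON F]
  have h7 : Infinite F := inferInstance
  have hu : IsUnit ((N : ℕ) : ON) := by
    have h8 := IsLocalization.Away.algebraMap_isUnit (S := ON) ((N : ℕ) : O)
    rwa [map_natCast] at h8
  obtain ⟨T, I, hT, hI, M, hFr, -⟩ := rel_models (k := ON) (E := F) x hasRM_dedekind htop r htr δ
    C0 hδ hu Empty Empty.elim (fun e => e.elim) (fun e => e.elim)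
  refine exists_model_Z (O := O) (ON := ON) ?_ N ?_ ?_ M hFr
  · exact (algebraMap F K).injective.comp (IsFractionRing.injective O F)
  · intro c
    obtain ⟨n, a, h⟩ := IsLocalization.Away.surj ((N : ℕ) : O) c
    exact ⟨n, a, h⟩
  · change algebraMap F K (algebraMap O F ((N : ℕ) : O)) ≠ 0
    exact (_root_.map_ne_zero _).2 hNF

/-- The residue characteristic. -/
lemma isUnit_factorial (R : Type) [CommRing R] [IsLocalRing R] (B : ℕ)
    (h : ringChar (IsLocalRing.ResidueField R) = 0 ∨ B < ringChar (IsLocalRing.ResidueField R)) :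
    IsUnit ((B.factorial : ℕ) : R) := by
  by_contra hcon
  have h1 : ((B.factorial : ℕ) : R) ∈ IsLocalRing.maximalIdeal R := hcon
  rw [← IsLocalRing.residue_eq_zero_iff, map_natCast, ringChar.spec] at h1
  rcases h with h | h
  · rw [h, zero_dvd_iff] at h1
    exact Nat.factorial_ne_zero _ h1
  · have h2 : (ringChar (IsLocalRing.ResidueField R)).Prime := by
      rcases CharP.char_is_prime_or_zero (IsLocalRing.ResidueField R)
        (ringChar (IsLocalRing.ResidueField R)) with h3 | h3
      · exact h3
      · omega
    rw [h2.dvd_factorial] at h1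
    omega

end Pool.Agent.N98.RM
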