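import Pool.Agent.N98.RM.Rel
import Pool.Agent.N98.RM.Base2
import Pool.Agent.H968R2.Quad.ExistsModel

/-!
Schemes from regular models.
-/

set_option autoImplicit false
set_option linter.unusedVariables false
set_option linter.unusedSectionVars false

open AlgebraicGeometry CategoryTheory Pool.Agent.W418.LU2

namespace Pool.Agent.N98.RM

/-- The homogeneous coordinates of a model. -/
theorem exists_coords {k K : Type} [CommRing k] [Field K] [Algebra k K] {R : Subalgebra k K}
    {T I : Type} [Finite T] (M : LM (⊥ : Subalgebra k K) R T I) :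
    ∃ (I' : Type) (_ : Finite I') (z : I' → K) (J : Set I'), (∀ j ∈ J, z j ≠ 0) ∧
      (∀ V : ValuationSubring K, (∀ c : k, algebraMap k K c ∈ V) →
        ∃ j ∈ J, ∀ i, z i / z j ∈ V) ∧
      ∀ j ∈ J, ∃ t, Algebra.adjoin k (Set.range fun i => z i / z j) = M.A t := by
  classical
  have : Fintype T := Fintype.ofFinite T
  have hfg : ∀ t, ∃ G : Finset K, Algebra.adjoin k (G : Set K) = M.A t := by
    intro t
    have h1 := M.ft t
    obtain ⟨G, hG⟩ := (Subalgebra.fg_iff_finiteType _).2 h1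
    exact ⟨G, hG⟩
  choose G hG using hfg
  have hGm : ∀ t, ∀ x ∈ G t, x ∈ M.A t := by
    intro t x hx
    rw [← hG t]; exact Algebra.subset_adjoin hx
  have h1 : ∀ p : (Σ t, {x // x ∈ G t}), ∃ n : ℕ, ∀ t, (M.H p.1 / M.H t) ^ n * p.2.1 ∈ M.A t := by
    rintro ⟨t, x, hx⟩
    choose m hm' using fun t' => M.gl t' t _ (hGm t x hx)
    refine ⟨Finset.univ.sup m, ?_⟩
    intro t'
    have h2 : m t' ≤ Finset.univ.sup m := Finset.le_sup (Finset.mem_univ t')
    exact M.gl_mono h2 (hm' t')
  choose N hN using h1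
  let n : ℕ := Finset.univ.sup N
  have hNn : ∀ p, N p ≤ n := fun p => Finset.le_sup (Finset.mem_univ p)
  let z : T ⊕ (Σ t, {x // x ∈ G t}) → K :=
    Sum.elim (fun t => M.H t ^ n) fun p => M.H p.1 ^ n * p.2.1
  have hz0 : ∀ t, z (Sum.inl t) ≠ 0 := fun t => pow_ne_zero n (M.H0 t)
  have hz : ∀ t i, z i / z (Sum.inl t) ∈ M.A t := by
    intro t i
    rcases i with t' | p
    · change M.H t' ^ n / M.H t ^ n ∈ M.A t
      rw [← div_pow]
      exact (M.A t).pow_mem (M.rt t t') n
    · change M.H p.1 ^ n * p.2.1 / M.H t ^ n ∈ M.A t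
      have e1 : M.H p.1 ^ n * p.2.1 / M.H t ^ n = (M.H p.1 / M.H t) ^ n * p.2.1 := by
        rw [div_pow]; ring
      rw [e1]
      exact M.gl_mono (hNn p) (hN p t)
  have hA : ∀ t, Algebra.adjoin k (Set.range fun i => z i / z (Sum.inl t)) = M.A t := by
    intro t
    apply le_antisymm
    · refine Algebra.adjoin_le ?_
      rintro _ ⟨i, rfl⟩
      exact hz t i
    · rw [← hG t, Algebra.adjoin_le_iff]
      intro x hx
      apply Algebra.subset_adjoin
      refine ⟨Sum.inr ⟨t, x, hx⟩, ?_⟩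
      change M.H t ^ n * x / M.H t ^ n = x
      have := pow_ne_zero n (M.H0 t)
      field_simp
  refine ⟨_, inferInstance, z, Set.range Sum.inl, ?_, ?_, ?_⟩
  · rintro _ ⟨t, rfl⟩
    exact hz0 t
  · intro V hV
    obtain ⟨t, ht⟩ := M.cv V (by
      intro a ha
      obtain ⟨c, rfl⟩ := Algebra.mem_bot.1 ha
      exact hV c)
    exact ⟨Sum.inl t, ⟨t, rfl⟩, fun i => ht _ (hz t i)⟩
  · rintro _ ⟨t, rfl⟩
    exact ⟨t, hA t⟩

section loc

variable {K : Type} [Field K]

/-- Regularity from a chart. -/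
theorem regular_of_lo {A B W : Subring K} {I : Type} {x : I → K} (hA : RegC A x) (hW : Loc W)
    (hAW : A ≤ W) (hB : B ≤ lo W A) (hWB : W ≤ lo W B) : IsRegularLocalRing W := by
  have h1 := (hA.reg W hW hAW Empty (fun e => e.elim) (fun e => e.elim)).reg
  have h2 : lo W A = W := by
    apply le_antisymm (lo_le hAW)
    exact hWB.trans ((lo_mono hB).trans (lo_lo hAW).le)
  rwa [h2] at h1

/-- A local ring is dominated by a valuation ring. -/
theorem exists_val {W : Subring K} (hW : Loc W) : ∃ V : ValuationSubring K, (∀ x ∈ W, x ∈ V) ∧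
    ∀ x ∈ W, x ≠ 0 → x⁻¹ ∈ V → x⁻¹ ∈ W := by
  have hloc : IsLocalRing W := by
    refine IsLocalRing.of_isUnit_or_isUnit_one_sub_self fun a => ?_
    rcases hW a a.2 with h | h
    · exact Or.inl (isUnit_iff_exists_inv.2 ⟨⟨_, h.2⟩, Subtype.ext (mul_inv_cancel₀ h.1)⟩)
    · exact Or.inr (isUnit_iff_exists_inv.2 ⟨⟨_, h.2⟩, Subtype.ext (mul_inv_cancel₀ h.1)⟩)
  let L : LocalSubring K := { toSubring := W, isLocalRing := hloc }
  obtain ⟨V, hV⟩ := L.exists_le_valuationSubring
  refine ⟨V, fun x hx => hV.1 hx, fun x hx hx0 hxV => ?_⟩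
  have hlh : IsLocalHom (Subring.inclusion hV.1) := hV.2
  have hu : IsUnit (Subring.inclusion hV.1 ⟨x, hx⟩) :=
    isUnit_iff_exists_inv.2 ⟨⟨_, hxV⟩, Subtype.ext (mul_inv_cancel₀ hx0)⟩
  have hu' : IsUnit (⟨x, hx⟩ : W) := isUnit_of_map_unit _ _ hu
  obtain ⟨c, hc⟩ := isUnit_iff_exists_inv.1 hu'
  have h3 : x * c = 1 := congrArg Subtype.val hc
  rw [← eq_inv_of_mul_eq_one_right h3]
  exact c.2

end loc

section two

variable {O ON K : Type} [CommRing O] [CommRing ON] [Field K] [Algebra O ON] [Algebra O K]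
  [Algebra ON K] [IsScalarTower O ON K]

/-- Linear combinations. -/
lemma span_div_mem {I' : Type} (z : I' → K) (a : K) (S : Subring K)
    (hO : ∀ c : O, algebraMap O K c ∈ S) (h : ∀ i, z i / a ∈ S) (m : K)
    (hm : m ∈ Submodule.span O (Set.range z)) : m / a ∈ S := by
  induction hm using Submodule.span_induction with
  | mem x hx =>
    obtain ⟨i, rfl⟩ := hx
    exact h i
  | zero => rw [zero_div]; exact S.zero_mem
  | add x y _ _ hx hy => rw [add_div]; exact S.add_mem hx hy
  | smul c x _ hx =>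
    rw [Algebra.smul_def, mul_div_assoc]
    exact S.mul_mem (hO c) hx

/-- Regularity of the local rings where `N` is invertible. -/
theorem regular_prime (N : O) (hN : ∀ c : ON, ∃ (n : ℕ) (a : O),
      c * algebraMap O ON N ^ n = algebraMap O ON a) (hN0 : algebraMap O K N ≠ 0)
    {T I : Type} (M : LM (⊥ : Subalgebra ON K) ⊤ T I) {I' : Type} (z : I' → K) (J : Set I')
    (hz0 : ∀ j ∈ J, z j ≠ 0)
    (hcv : ∀ V : ValuationSubring K, (∀ c : ON, algebraMap ON K c ∈ V) →
        ∃ j ∈ J, ∀ i, z i / z j ∈ V)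
    (hA : ∀ j ∈ J, ∃ t, Algebra.adjoin ON (Set.range fun i => z i / z j) = M.A t)
    (f : K) (hf : f ∈ Submodule.span O (Set.range z)) (hf0 : f ≠ 0)
    (q : Ideal (Algebra.adjoin O {y : K | ∃ m ∈ Submodule.span O (Set.range z), y = m / f}))
    [q.IsPrime] (hNq : algebraMap O _ N ∉ q) : IsRegularLocalRing (Localization.AtPrime q) := by
  let B := Algebra.adjoin O {y : K | ∃ m ∈ Submodule.span O (Set.range z), y = m / f}
  let q' : Ideal B.toSubring := q
  have hq' : q'.IsPrime := ‹q.IsPrime›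
  let L := LocalSubring.ofPrime B.toSubring q'
  let W : Subring K := L.toSubring
  have hW : Loc W := loc_ofPrime B.toSubring q'
  have hBW : B.toSubring ≤ W := LocalSubring.le_ofPrime _ _
  have hWB : lo W B.toSubring = W := lo_ofPrime B.toSubring q'
  have hinvB : ∀ b : B.toSubring, b ∉ q' → (b : K)⁻¹ ∈ W := fun b hb => inv_mem_ofPrime hb
  obtain ⟨V, hWV, hV⟩ := exists_val hW
  have hOB : ∀ c : O, algebraMap O K c ∈ B.toSubring := fun c => B.algebraMap_mem c
  have hNW : (algebraMap O K N)⁻¹ ∈ W := hinvB ⟨_, hOB N⟩ hNq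
  have hONW : ∀ c : ON, algebraMap ON K c ∈ W := by
    intro c
    obtain ⟨n, a, hn⟩ := hN c
    have h1 := congrArg (algebraMap ON K) hn
    rw [map_mul, map_pow, ← IsScalarTower.algebraMap_apply, ← IsScalarTower.algebraMap_apply] at h1
    have h2 : algebraMap ON K c = algebraMap O K a * (algebraMap O K N)⁻¹ ^ n := by
      rw [← h1, mul_assoc, ← mul_pow, mul_inv_cancel₀ hN0, one_pow, mul_one]
    rw [h2]
    exact W.mul_mem (hBW (hOB a)) (W.pow_mem hNW n)
  obtain ⟨j, hj, hjV⟩ := hcv V fun c => hWV _ (hONW c)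
  obtain ⟨t, ht⟩ := hA j hj
  have hj0 := hz0 j hj
  have hfV : f / z j ∈ V := span_div_mem (O := O) z (z j) V.toSubring
    (fun c => hWV _ (hBW (hOB c))) hjV f hf
  have hzB : ∀ i, z i / f ∈ B.toSubring := fun i =>
    Algebra.subset_adjoin ⟨z i, Submodule.subset_span ⟨i, rfl⟩, rfl⟩
  have hfW : f / z j ∈ W := by
    have h1 := hV (z j / f) (hBW (hzB j)) (div_ne_zero hj0 hf0) (by rw [inv_div]; exact hfV)
    rwa [inv_div] at h1
  have hzW : ∀ i, z i / z j ∈ W := by
    intro i
    have e : z i / z j = (z i / f) * (f / z j) := by field_simp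
    rw [e]
    exact W.mul_mem (hBW (hzB i)) hfW
  have hAW : (M.A t).toSubring ≤ W := by
    rw [← ht]
    intro a ha
    have ha' : a ∈ Algebra.adjoin ON (Set.range fun i => z i / z j) := ha
    clear ha
    induction ha' using Algebra.adjoin_induction with
    | mem a ha =>
      obtain ⟨i, rfl⟩ := ha
      exact hzW i
    | algebraMap r => exact hONW r
    | add x y _ _ hx hy => exact W.add_mem hx hy
    | mul x y _ _ hx hy => exact W.mul_mem hx hy
  have hOA : ∀ c : O, algebraMap O K c ∈ (M.A t).toSubring := fun c => by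
    rw [IsScalarTower.algebraMap_apply O ON K]
    exact (M.A t).algebraMap_mem _
  have hzA : ∀ i, z i / z j ∈ (M.A t).toSubring := fun i => by
    rw [← ht]
    exact Algebra.subset_adjoin ⟨i, rfl⟩
  have hBA : B.toSubring ≤ lo W (M.A t).toSubring := by
    have hfA : f / z j ∈ (M.A t).toSubring := span_div_mem (O := O) z (z j) _ hOA hzA f hf
    have hinv : z j / f ∈ lo W (M.A t).toSubring := by
      have h1 := inv_mem_lo hAW (le_lo _ _ hfA) (div_ne_zero hf0 hj0) (by
        rw [inv_div]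
        exact hBW (hzB j))
      rwa [inv_div] at h1
    intro a ha
    have ha' : a ∈ Algebra.adjoin O {y : K | ∃ m ∈ Submodule.span O (Set.range z), y = m / f} := ha
    clear ha
    induction ha' using Algebra.adjoin_induction with
    | mem a ha =>
      obtain ⟨m, hm, rfl⟩ := ha
      have e : m / f = (m / z j) * (z j / f) := by field_simp
      rw [e]
      exact (lo W (M.A t).toSubring).mul_mem
        (le_lo _ _ (span_div_mem (O := O) z (z j) _ hOA hzA m hm)) hinv
    | algebraMap r => exact le_lo _ _ (hOA r)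
    | add x y _ _ hx hy => exact (lo W (M.A t).toSubring).add_mem hx hy
    | mul x y _ _ hx hy => exact (lo W (M.A t).toSubring).mul_mem hx hy
  have hreg : IsRegularLocalRing W := regular_of_lo (M.rg t) hW hAW hBA hWB.ge
  exact IsRegularLocalRing.of_ringEquiv (LocalSubring.ofPrimeEquiv B.toSubring q').symm.toRingEquiv

end two

end Pool.Agent.N98.RM
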