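import Pool.Agent.N98.RM.Sch

/-!
Models which are proper over the integers, and regular where a given number is invertible.
-/

set_option autoImplicit false
set_option linter.unusedVariables false
set_option linter.unusedSectionVars false

open AlgebraicGeometry CategoryTheory HomogeneousLocalization Pool.Agent.H968R2.Quad

namespace Pool.Agent.N98.RM

section aux

lemma regular_of_equiv' {R S : Type} [CommRing R] [CommRing S] (e : R ≃+* S) (N : ℕ)
    (h : ∀ (q : Ideal R) [q.IsPrime], ((N : ℕ) : R) ∉ q →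
      IsRegularLocalRing (Localization.AtPrime q)) (p : Ideal S) [p.IsPrime]
    (hp : ((N : ℕ) : S) ∉ p) : IsRegularLocalRing (Localization.AtPrime p) := by
  have := h (p.comap e) (fun h3 => hp (by
    have h4 : e (N : ℕ) ∈ p := h3
    rwa [map_natCast] at h4))
  exact IsRegularLocalRing.of_ringEquiv <| IsLocalization.ringEquivOfRingEquiv
    (Localization.AtPrime (p.comap e)) (Localization.AtPrime p) e (e.map_primeCompl_comap_eq p)

lemma notMem_of_isUnit (R : CommRingCat.{0}) (x : PrimeSpectrum R) (N : ℕ)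
    (h : IsUnit ((N : ℕ) : (Spec R).presheaf.stalk x)) : ((N : ℕ) : R) ∉ x.asIdeal := by
  let k : Algebra R ((Spec R).presheaf.stalk x) := StructureSheaf.stalkAlgebra R x
  have h1 : IsLocalization.AtPrime ((Spec R).presheaf.stalk x) x.asIdeal :=
    StructureSheaf.IsLocalization.to_stalk R x
  have h4 : IsUnit (algebraMap R ((Spec R).presheaf.stalk x) ((N : ℕ) : R)) := by
    rwa [map_natCast]
  exact (IsLocalization.AtPrime.isUnit_to_map_iff ((Spec R).presheaf.stalk x) x.asIdeal
      ((N : ℕ) : R)).1 h4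

end aux

section stalk

variable {O : Type} [CommRing O] {F : Type} [Field F] [Algebra O F] (M : Submodule O F)

/-- Regularity of the stalks where `N` is invertible. -/
lemma stalk_regular' (N : ℕ)
    (hreg : ∀ f ∈ M, f ≠ 0 →
      ∀ (q : Ideal (Algebra.adjoin O {y : F | ∃ m ∈ M, y = m / f})) [q.IsPrime],
      ((N : ℕ) : Algebra.adjoin O {y : F | ∃ m ∈ M, y = m / f}) ∉ q →
      IsRegularLocalRing (Localization.AtPrime q)) (y : model M)
    (hy : IsUnit ((N : ℕ) : (model M).presheaf.stalk y)) :
    IsRegularLocalRing ((model M).presheaf.stalk y) := by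
  obtain ⟨a, ha, ha0, z, rfl⟩ := exists_chart M y
  let z' : PrimeSpectrum (Away (mPiece M) (tElt M a ha)) := z
  have e := (asIso ((modelChart M a ha).stalkMap z)).commRingCatIsoToRingEquiv
  have hN : ((N : ℕ) : Away (mPiece M) (tElt M a ha)) ∉ z'.asIdeal := by
    refine notMem_of_isUnit (CommRingCat.of (Away (mPiece M) (tElt M a ha))) z' N ?_
    have h3 := hy.map e
    rwa [map_natCast] at h3
  have h1 : IsRegularLocalRing (Localization.AtPrime z'.asIdeal) :=
    regular_of_equiv' (chartEquiv M a ha ha0).symm N (fun q _ hq => hreg a ha ha0 q hq)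
      z'.asIdeal hN
  have h2 := regular_stalk_spec (CommRingCat.of (Away (mPiece M) (tElt M a ha))) z' h1
  exact IsRegularLocalRing.of_ringEquiv e.symm

end stalk

/-- Proper models over the integers. -/
theorem exists_model_Z {O ON K : Type} [CommRing O] [IsDomain O] [Module.Finite ℤ O]
    [CommRing ON] [Field K] [Algebra O ON] [Algebra O K] [Algebra ON K] [IsScalarTower O ON K]
    (hinj : Function.Injective (algebraMap O K)) (N : ℕ) (hN : ∀ c : ON, ∃ (n : ℕ) (a : O),
      c * algebraMap O ON (N : ℕ) ^ n = algebraMap O ON a) (hN0 : algebraMap O K (N : ℕ) ≠ 0)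
    {T I : Type} [Finite T] (M : LM (⊥ : Subalgebra ON K) ⊤ T I) (hFr : Frc M) :
    ∃ (X' : Scheme.{0}) (_ : IsIntegral X') (g : X' ⟶ Spec (CommRingCat.of ℤ)),
      IsProper g ∧
      (∀ x : X', IsUnit ((N : ℕ) : X'.presheaf.stalk x) →
        IsRegularLocalRing (X'.presheaf.stalk x)) ∧
      Nonempty (X'.functionField ≃+* K) := by
  classical
  obtain ⟨I', hI', z, J, hz0, hcv, hA⟩ := exists_coords M
  let P : Submodule O K := Submodule.span O (Set.range z)
  have hz : ∀ i, z i ∈ P := fun i => Submodule.subset_span ⟨i, rfl⟩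
  obtain ⟨j, hj, -⟩ := hcv ⊤ (fun _ => trivial)
  have hint : IsIntegral (model P) := model_integral P (z j) (hz j) (hz0 j hj)
  refine ⟨model P, hint,
    modelMap P ≫ Spec.map (CommRingCat.ofHom (algebraMap ℤ O)), ?_, ?_,
    functionField_equiv P (z j) (hz j) (hz0 j hj) ?_⟩
  · have h1 : IsProper (modelMap P) :=
      modelMap_isProper P hinj (Submodule.fg_span (Set.finite_range z))
    have h2 : IsFinite (Spec.map (CommRingCat.ofHom (algebraMap ℤ O))) := by
      rw [IsFinite.SpecMap_iff]
      exact RingHom.finite_algebraMap.2 inferInstance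
    have h3 : IsProper (Spec.map (CommRingCat.ofHom (algebraMap ℤ O))) := inferInstance
    exact MorphismProperty.comp_mem @IsProper _ _ h1 h3
  · intro x hx
    refine stalk_regular' P N ?_ x hx
    intro f hf hf0 q _ hq
    refine regular_prime (N : O) hN hN0 M z J hz0 hcv hA f hf hf0 q ?_
    rwa [map_natCast]
  · intro x
    obtain ⟨t, ht⟩ := hA j hj
    obtain ⟨a, ha, b, hb, hb0, rfl⟩ := hFr t x
    set C := Algebra.adjoin O {y : K | ∃ m ∈ P, y = m / z j} with hC
    have key : ∀ a ∈ M.A t, ∃ n : ℕ, a * algebraMap O K (N : ℕ) ^ n ∈ C := by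
      intro a ha
      rw [← ht] at ha
      have hNC : ∀ n : ℕ, algebraMap O K (N : ℕ) ^ n ∈ C := fun n =>
        C.pow_mem (C.algebraMap_mem _) n
      induction ha using Algebra.adjoin_induction with
      | mem a ha =>
        obtain ⟨i, rfl⟩ := ha
        refine ⟨0, ?_⟩
        rw [pow_zero, mul_one]
        exact Algebra.subset_adjoin ⟨z i, hz i, rfl⟩
      | algebraMap r =>
        obtain ⟨n, a, hn⟩ := hN r
        refine ⟨n, ?_⟩
        have h1 := congrArg (algebraMap ON K) hn
        rw [map_mul, map_pow, ← IsScalarTower.algebraMap_apply,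
          ← IsScalarTower.algebraMap_apply] at h1
        rw [h1]
        exact C.algebraMap_mem a
      | add x y _ _ hx hy =>
        obtain ⟨n, hn⟩ := hx
        obtain ⟨m, hm⟩ := hy
        refine ⟨n + m, ?_⟩
        have e : (x + y) * algebraMap O K (N : ℕ) ^ (n + m) =
            x * algebraMap O K (N : ℕ) ^ n * algebraMap O K (N : ℕ) ^ m +
              y * algebraMap O K (N : ℕ) ^ m * algebraMap O K (N : ℕ) ^ n := by ring
        rw [e]
        exact C.add_mem (C.mul_mem hn (hNC m)) (C.mul_mem hm (hNC n))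
      | mul x y _ _ hx hy =>
        obtain ⟨n, hn⟩ := hx
        obtain ⟨m, hm⟩ := hy
        refine ⟨n + m, ?_⟩
        have e : (x * y) * algebraMap O K (N : ℕ) ^ (n + m) =
            (x * algebraMap O K (N : ℕ) ^ n) * (y * algebraMap O K (N : ℕ) ^ m) := by ring
        rw [e]
        exact C.mul_mem hn hm
    obtain ⟨n, hn⟩ := key a ha
    obtain ⟨m, hm⟩ := key b hb
    have hNC : ∀ n : ℕ, algebraMap O K (N : ℕ) ^ n ∈ C := fun n =>
      C.pow_mem (C.algebraMap_mem _) n
    refine ⟨a * algebraMap O K (N : ℕ) ^ n * algebraMap O K (N : ℕ) ^ m,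
      C.mul_mem hn (hNC m), b * algebraMap O K (N : ℕ) ^ m * algebraMap O K (N : ℕ) ^ n,
      C.mul_mem hm (hNC n), ?_, ?_⟩
    · exact mul_ne_zero (mul_ne_zero hb0 (pow_ne_zero _ hN0)) (pow_ne_zero _ hN0)
    · have h1 := pow_ne_zero n hN0
      have h2 := pow_ne_zero m hN0
      field_simp

end Pool.Agent.N98.RM
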